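import Pool.Agent.H566W.Ana

/-!
# Analytic sets in the Cantor space

The property of Baire of the analytic sets and the perfect set lemma are in
`Pool/Agent/H566W/Ana.lean` (`analytic_baire` below is also in `Pool/Agent/H904R3/Gen.lean`).
-/

set_option autoImplicit false

open Set MeasureTheory Filter Topology Function

namespace Run7.h575.HD

/-- a space with a countable base and a complete metric is Polish -/
theorem polish_of (α : Type*) [TopologicalSpace α] [SecondCountableTopology α]
    [TopologicalSpace.IsCompletelyMetrizableSpace α] : PolishSpace α := {}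

instance : PolishSpace (ℕ → Bool) := polish_of _

/-- Analytic sets have the property of Baire. -/
theorem analytic_baire {X : Type*} [TopologicalSpace X] [SecondCountableTopology X] [T2Space X]
    {A : Set X} (hA : AnalyticSet A) :
    ∃ u : Set X, IsOpen u ∧ ∀ᶠ x in residual X, (x ∈ A ↔ x ∈ u) := by
  rw [AnalyticSet] at hA
  rcases hA with rfl | ⟨f, hf, hfr⟩
  · exact ⟨∅, isOpen_empty, Eventually.of_forall fun _ => Iff.rfl⟩
  have h1 : IsMeagre (A \ Pool.Agent.H566W.Dn A) := Pool.Agent.H566W.sdiff_Dn A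
  have h2 : IsMeagre (Pool.Agent.H566W.Dn A \ A) := by
    rw [← hfr]
    exact Pool.Agent.H566W.analytic_bp hf
  have h3 : BaireMeasurableSet (Pool.Agent.H566W.Dn A) :=
    ((Pool.Agent.H566W.Dn_closed A).isOpen_compl.baireMeasurableSet).of_compl
  have h4 : A =ᶠ[residual X] Pool.Agent.H566W.Dn A := by
    rw [Filter.eventuallyEq_set]
    have h1' : (A \ Pool.Agent.H566W.Dn A)ᶜ ∈ residual X := h1
    have h2' : (Pool.Agent.H566W.Dn A \ A)ᶜ ∈ residual X := h2
    filter_upwards [h1', h2'] with x hx1 hx2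
    constructor
    · intro hx
      by_contra hc
      exact hx1 ⟨hx, hc⟩
    · intro hx
      by_contra hc
      exact hx2 ⟨hx, hc⟩
  obtain ⟨u, hu, hAu⟩ := (h3.congr h4.symm).residualEq_isOpen
  exact ⟨u, hu, Filter.eventuallyEq_set.1 hAu⟩

/-- change of the `k`-th coordinate -/
def flip (k : ℕ) (x : ℕ → Bool) : ℕ → Bool := update x k (!x k)

theorem flip_flip (k : ℕ) (x : ℕ → Bool) : flip k (flip k x) = x := by
  unfold flip
  rw [update_idem, update_self, Bool.not_not, update_eq_self]

theorem flip_self (k : ℕ) (x : ℕ → Bool) : flip k x k = !x k := update_self _ _ _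

theorem flip_ne {k j : ℕ} (h : j ≠ k) (x : ℕ → Bool) : flip k x j = x j := update_of_ne h _ _

theorem continuous_flip (k : ℕ) : Continuous (flip k) := by
  refine continuous_pi fun j => ?_
  by_cases h : j = k
  · subst h
    simp only [flip_self]
    exact (continuous_of_discreteTopology (f := not)).comp (continuous_apply j)
  · simp only [flip_ne h]
    exact continuous_apply j

/-- the change of the `k`-th coordinate as a homeomorphism -/
def flipH (k : ℕ) : (ℕ → Bool) ≃ₜ (ℕ → Bool) where
  toFun := flip k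
  invFun := flip k
  left_inv := flip_flip k
  right_inv := flip_flip k
  continuous_toFun := continuous_flip k
  continuous_invFun := continuous_flip k

/-- a nonmeagre analytic set contains, for all large `k`, two points which differ exactly in the
coordinate `k` -/
theorem exists_flip {A : Set (ℕ → Bool)} (hA : AnalyticSet A) (hn : ¬ IsMeagre A) :
    ∃ N, ∀ k ≥ N, ∃ x ∈ A, flip k x ∈ A := by
  obtain ⟨u, hu, hAu⟩ := analytic_baire hA
  have hne : u.Nonempty := by
    by_contra hc
    rw [Set.not_nonempty_iff_eq_empty] at hc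
    subst hc
    apply hn
    rw [IsMeagre]
    filter_upwards [hAu] with x hx hxA
    exact hx.1 hxA
  obtain ⟨y, hy⟩ := hne
  -- a cylinder in u
  obtain ⟨I, t, ht1, ht2⟩ := isOpen_pi_iff.1 hu y hy
  obtain ⟨N, hN⟩ : ∃ N, ∀ i ∈ I, i < N := by
    refine ⟨I.sup id + 1, fun i hi => ?_⟩
    exact Nat.lt_succ_of_le (Finset.le_sup (f := id) hi)
  refine ⟨N, fun k hk => ?_⟩
  have h1 : ∀ᶠ x in residual (ℕ → Bool), (flip k x ∈ A ↔ flip k x ∈ u) :=
    (tendsto_residual_of_isOpenMap (continuous_flip k) (flipH k).isOpenMap).eventually hAu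
  have hV : IsOpen ((I : Set ℕ).pi t) :=
    isOpen_set_pi I.finite_toSet fun i hi => (ht1 i hi).1
  obtain ⟨x, hx1, hx2, hx3⟩ := mem_closure_iff.1 (dense_of_mem_residual (hAu.and h1) y) _ hV
    fun i hi => (ht1 i hi).2
  refine ⟨x, hx2.2 (ht2 hx1), hx3.2 (ht2 fun i hi => ?_)⟩
  rw [flip_ne (by have := hN i hi; omega)]
  exact hx1 i hi

/-- an analytic relation with meagre sections has a perfect independent set -/
theorem exists_perfect (R : (ℕ → Bool) → (ℕ → Bool) → Prop)
    (hR : AnalyticSet {p : (ℕ → Bool) × (ℕ → Bool) | R p.1 p.2})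
    (hc : ∀ x, IsMeagre {y | R x y}) :
    ∃ h : (ℕ → Bool) → (ℕ → Bool), Continuous h ∧ ∀ b b', b ≠ b' → ¬ R (h b) (h b') := by
  have hm : IsMeagre {p : (ℕ → Bool) × (ℕ → Bool) | R p.1 p.2} := by
    rw [AnalyticSet] at hR
    rcases hR with h | ⟨f, hf, hfr⟩
    · rw [h]; exact IsMeagre.empty
    · rw [← hfr]
      apply Pool.Agent.H566W.meagre_of_sections hf
      intro x
      rw [hfr]
      exact hc x
  obtain ⟨S, hSo, hSd, hSc, hSM⟩ := mem_residual_iff.1 hm
  obtain ⟨W, hW⟩ := (hSc.insert univ).exists_eq_range ⟨univ, mem_insert _ _⟩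
  have hWS : ∀ n, W n = univ ∨ W n ∈ S := by
    intro n
    have : W n ∈ insert univ S := by rw [hW]; exact ⟨n, rfl⟩
    exact this
  obtain ⟨h, hh1, hh2⟩ := Pool.Agent.H565R2.FO2.mycielski' W (fun n => by
    rcases hWS n with h | h
    · rw [h]; exact isOpen_univ
    · exact hSo _ h) (fun n => by
    rcases hWS n with h | h
    · rw [h]; exact dense_univ
    · exact hSd _ h)
  refine ⟨h, hh1, fun b b' hbb hRb => ?_⟩
  refine hSM (a := (h b, h b')) (fun t ht => ?_) hRb
  have : t ∈ range W := by rw [← hW]; exact mem_insert_of_mem _ ht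
  obtain ⟨n, rfl⟩ := this
  exact hh2 b b' hbb n

end Run7.h575.HD
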