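import Pool.Agent.Run7.h575.HD.C1
import Pool.Agent.N235.DH.Key

/-!
# Analytic sets of homeomorphisms

`E n = ℝ^{2n}`; `HK n K`: the uniform limits, supported in `K`, of Hamiltonian diffeomorphisms
supported in `K` (`Pool/Agent/N235/DH/Key.lean`).
-/

set_option autoImplicit false

open Set MeasureTheory Filter Topology Function
open Pool.Agent.Y453.HB
open Pool.Agent.Y309.HB
open Pool.Agent.N235.DH

namespace Run7.h575.HD

variable {n : ℕ}

/-- homeomorphisms of `ℝ^{2n}` -/
abbrev Hm (n : ℕ) : Type := E n ≃ₜ E n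

/-- pairs of continuous maps -/
abbrev CC (n : ℕ) : Type := C(E n, E n) × C(E n, E n)

theorem cms (n : ℕ) : TopologicalSpace.IsCompletelyMetrizableSpace C(E n, E n) :=
  @TopologicalSpace.IsCompletelyMetrizableSpace.of_completeSpace_metrizable C(E n, E n) _ _ _ _

instance : PolishSpace C(E n, E n) := @polish_of _ _ _ (cms n)

instance : PolishSpace (CC n) := polish_of _

instance : PolishSpace (CC n × CC n) := polish_of _

/-- a homeomorphism and its inverse, as continuous maps -/
def io (φ : Hm n) : CC n := (⟨φ, φ.continuous⟩, ⟨φ.symm, φ.symm.continuous⟩)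

theorem io_inj {φ ψ : Hm n} (h : io φ = io ψ) : φ = ψ := by
  refine Homeomorph.ext fun x => ?_
  exact DFunLike.congr_fun (Prod.ext_iff.1 h).1 x

/-- analytic sets of homeomorphisms, for the topology of locally uniform convergence -/
def An (S : Set (Hm n)) : Prop := AnalyticSet (io '' S)

theorem analytic_inter {X : Type*} [TopologicalSpace X] [T2Space X] {A B : Set X}
    (hA : AnalyticSet A) (hB : AnalyticSet B) : AnalyticSet (A ∩ B) := by
  have h : A ∩ B = ⋂ b : Bool, bif b then A else B := by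
    ext x
    simp [and_comm]
  rw [h]
  refine AnalyticSet.iInter fun b => ?_
  cases b
  · exact hB
  · exact hA

theorem An_map2 {S T : Set (Hm n)} (hS : An S) (hT : An T) (F : CC n × CC n → CC n)
    (hF : Continuous F) (op : Hm n → Hm n → Hm n) (h : ∀ f g, io (op f g) = F (io f, io g)) :
    An {k | ∃ f ∈ S, ∃ g ∈ T, k = op f g} := by
  have h1 : AnalyticSet ((Prod.fst ⁻¹' (io '' S)) ∩ (Prod.snd ⁻¹' (io '' T)) : Set (CC n × CC n)) :=
    analytic_inter (AnalyticSet.preimage hS continuous_fst) (AnalyticSet.preimage hT continuous_snd)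
  have h2 := h1.image_of_continuous hF
  unfold An
  convert h2 using 1
  ext p
  constructor
  · rintro ⟨_, ⟨f, hf, g, hg, rfl⟩, rfl⟩
    exact ⟨(io f, io g), ⟨⟨f, hf, rfl⟩, ⟨g, hg, rfl⟩⟩, (h f g).symm⟩
  · rintro ⟨⟨p, q⟩, ⟨⟨f, hf, hfp⟩, ⟨g, hg, hgq⟩⟩, rfl⟩
    change io f = p at hfp
    change io g = q at hgq
    subst hfp hgq
    exact ⟨op f g, ⟨f, hf, g, hg, rfl⟩, h f g⟩

theorem An_map1 {S : Set (Hm n)} (hS : An S) (F : CC n → CC n)
    (hF : Continuous F) (op : Hm n → Hm n) (h : ∀ f, io (op f) = F (io f)) :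
    An {k | ∃ f ∈ S, k = op f} := by
  have h2 := AnalyticSet.image_of_continuous hS hF
  unfold An
  convert h2 using 1
  ext p
  constructor
  · rintro ⟨_, ⟨f, hf, rfl⟩, rfl⟩
    exact ⟨io f, ⟨f, hf, rfl⟩, (h f).symm⟩
  · rintro ⟨p, ⟨f, hf, rfl⟩, rfl⟩
    exact ⟨op f, ⟨f, hf, rfl⟩, h f⟩

theorem An_iUnion {ι : Type*} [Countable ι] {S : ι → Set (Hm n)} (h : ∀ i, An (S i)) :
    An (⋃ i, S i) := by
  unfold An
  rw [image_iUnion]
  exact AnalyticSet.iUnion h

theorem An_singleton (φ : Hm n) : An {φ} := by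
  unfold An
  rw [image_singleton]
  exact isClosed_singleton.analyticSet

/-- the product of pairs -/
def mulC (p : CC n × CC n) : CC n := (p.1.1.comp p.2.1, p.2.2.comp p.1.2)

/-- the inverse pair -/
def invC (p : CC n) : CC n := (p.2, p.1)

theorem io_mul (f g : Hm n) : io (f * g) = mulC (io f, io g) := rfl

theorem io_inv (f : Hm n) : io f⁻¹ = invC (io f) := rfl

theorem continuous_mulC : Continuous (mulC : CC n × CC n → CC n) := by
  have h1 : Continuous fun p : CC n × CC n => p.1.1.comp p.2.1 :=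
    Continuous.compCM (X := E n) (Y := E n) (Z := E n) (continuous_fst.comp continuous_fst)
      (continuous_fst.comp continuous_snd)
  have h2 : Continuous fun p : CC n × CC n => p.2.2.comp p.1.2 :=
    Continuous.compCM (X := E n) (Y := E n) (Z := E n) (continuous_snd.comp continuous_snd)
      (continuous_snd.comp continuous_fst)
  exact h1.prodMk h2

theorem continuous_invC : Continuous (invC : CC n → CC n) :=
  continuous_snd.prodMk continuous_fst

theorem An_mul {S T : Set (Hm n)} (hS : An S) (hT : An T) :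
    An {k | ∃ f ∈ S, ∃ g ∈ T, k = f * g} :=
  An_map2 hS hT mulC continuous_mulC (fun f g => f * g) io_mul

theorem An_inv {S : Set (Hm n)} (hS : An S) : An {k | ∃ f ∈ S, k = f⁻¹} :=
  An_map1 hS invC continuous_invC (fun f => f⁻¹) io_inv

theorem cont_mul {X : Type*} [TopologicalSpace X] {f g : X → CC n} (hf : Continuous f)
    (hg : Continuous g) : Continuous fun x => mulC (f x, g x) :=
  continuous_mulC.comp (hf.prodMk hg)

theorem cont_inv {X : Type*} [TopologicalSpace X] {f : X → CC n} (hf : Continuous f) :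
    Continuous fun x => invC (f x) :=
  continuous_invC.comp hf

open scoped commutatorElement in
/-- the set of commutators -/
theorem An_comm {S T : Set (Hm n)} (hS : An S) (hT : An T) :
    An {k | ∃ f ∈ S, ∃ g ∈ T, k = ⁅f, g⁆} := by
  refine An_map2 hS hT (fun p => mulC (mulC (mulC (p.1, p.2), invC p.1), invC p.2)) ?_
    (fun f g => ⁅f, g⁆) fun f g => rfl
  exact cont_mul (cont_mul (cont_mul continuous_fst continuous_snd) (cont_inv continuous_fst))
    (cont_inv continuous_snd)

/-- the set of conjugates -/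
theorem An_conj {S T : Set (Hm n)} (hS : An S) (hT : An T) :
    An {k | ∃ f ∈ S, ∃ g ∈ T, k = f * g * f⁻¹} := by
  refine An_map2 hS hT (fun p => mulC (mulC (p.1, p.2), invC p.1)) ?_
    (fun f g => f * g * f⁻¹) fun f g => rfl
  exact cont_mul (cont_mul continuous_fst continuous_snd) (cont_inv continuous_fst)

/-- conjugation by a fixed homeomorphism -/
theorem An_fix {S : Set (Hm n)} (hS : An S) (τ : Hm n) : An {k | τ * k * τ⁻¹ ∈ S} := by
  have h := An_map1 hS (fun p => mulC (mulC (io τ⁻¹, p), io τ))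
    (cont_mul (cont_mul continuous_const continuous_id) continuous_const)
    (fun f => τ⁻¹ * f * τ) fun f => rfl
  convert h using 1
  ext k
  constructor
  · intro hk
    exact ⟨_, hk, by group⟩
  · rintro ⟨f, hf, rfl⟩
    have : τ * (τ⁻¹ * f * τ) * τ⁻¹ = f := by group
    change τ * (τ⁻¹ * f * τ) * τ⁻¹ ∈ S
    rwa [this]

theorem io_HK_closed {K : Set (E n)} (hK : IsCompact K) : IsClosed (io '' HK n K) := by
  refine IsSeqClosed.isClosed ?_
  intro p q hp hpq
  choose φ hφ1 hφ2 using hp
  have h1 : Tendsto (fun k => (p k).1) atTop (𝓝 q.1) := (continuous_fst.tendsto q).comp hpq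
  have h2 : Tendsto (fun k => (p k).2) atTop (𝓝 q.2) := (continuous_snd.tendsto q).comp hpq
  have e1 : ∀ k x, (p k).1 x = φ k x := fun k x => by rw [← hφ2 k]; rfl
  have e2 : ∀ k x, (p k).2 x = (φ k).symm x := fun k x => by rw [← hφ2 k]; rfl
  have ev : ∀ (f : ℕ → C(E n, E n)) (F : C(E n, E n)) (y : ℕ → E n) (z : E n),
      Tendsto f atTop (𝓝 F) → Tendsto y atTop (𝓝 z) →
      Tendsto (fun k => f k (y k)) atTop (𝓝 (F z)) := by
    intro f F y z hf hy
    exact ((continuous_eval (F := C(E n, E n)) (X := E n) (Y := E n)).tendsto (F, z)).comp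
      (hf.prodMk_nhds hy)
  have h3 : ∀ x, q.1 (q.2 x) = x := by
    intro x
    have h4 := ev _ _ _ _ h1 (ev _ _ (fun _ => x) x h2 tendsto_const_nhds)
    refine tendsto_nhds_unique h4 ?_
    simp only [e1, e2, Homeomorph.apply_symm_apply]
    exact tendsto_const_nhds
  have h3' : ∀ x, q.2 (q.1 x) = x := by
    intro x
    have h4 := ev _ _ _ _ h2 (ev _ _ (fun _ => x) x h1 tendsto_const_nhds)
    refine tendsto_nhds_unique h4 ?_
    simp only [e1, e2, Homeomorph.symm_apply_apply]
    exact tendsto_const_nhds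
  let g : Hm n :=
    { toFun := q.1
      invFun := q.2
      left_inv := h3'
      right_inv := h3
      continuous_toFun := q.1.continuous
      continuous_invFun := q.2.continuous }
  have hg : ∀ x, x ∉ K → g x = x := by
    intro x hx
    have h4 := ev _ _ (fun _ => x) x h1 tendsto_const_nhds
    refine tendsto_nhds_unique h4 ?_
    have : (fun k => (p k).1 x) = fun _ => x := funext fun k => by rw [e1, (hφ1 k).1 x hx]
    rw [this]
    exact tendsto_const_nhds
  refine ⟨g, HK_closed hφ1 hg ?_, rfl⟩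
  have h5 := ContinuousMap.tendsto_iff_forall_isCompact_tendstoUniformlyOn.1 h1 K hK
  rw [Metric.tendstoUniformlyOn_iff] at h5
  rw [Metric.tendstoUniformly_iff]
  intro ε hε
  filter_upwards [h5 ε hε] with k hk x
  by_cases hx : x ∈ K
  · have := hk x hx
    rwa [e1] at this
  · rw [hg x hx, (hφ1 k).1 x hx, dist_self]
    exact hε

theorem An_HK {K : Set (E n)} (hK : IsCompact K) : An (HK n K) :=
  (io_HK_closed hK).analyticSet

end Run7.h575.HD
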