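import Pool.Agent.Run7.h575.HD.C2

/-!
# Infinite products of small homeomorphisms, with arbitrary choices of the factors
-/

set_option autoImplicit false

open Set MeasureTheory Filter Topology Function
open Pool.Agent.Y453.HB
open Pool.Agent.Y309.HB
open Pool.Agent.N235.DH

namespace Run7.h575.HD

variable {n : ℕ}

/-- the partial products of the `φ m` with `x m = true` -/
noncomputable def wp (φ : ℕ → Hm n) (x : ℕ → Bool) : ℕ → Hm n
  | 0 => 1
  | m + 1 => wp φ x m * (if x m then φ m else 1)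

theorem wp_succ (φ : ℕ → Hm n) (x : ℕ → Bool) (m : ℕ) :
    wp φ x (m + 1) = wp φ x m * (if x m then φ m else 1) := rfl

theorem ite_HK {K : Set (E n)} {φ : Hm n} (h : φ ∈ HK n K) (b : Bool) :
    (if b then φ else 1) ∈ HK n K := by
  cases b
  · exact HK_one K
  · exact h

theorem wp_HK {K : Set (E n)} (hK : IsCompact K) {φ : ℕ → Hm n} (h : ∀ m, φ m ∈ HK n K)
    (x : ℕ → Bool) (m : ℕ) : wp φ x m ∈ HK n K := by
  induction m with
  | zero => exact HK_one K
  | succ m ih => exact HK_mul hK ih (ite_HK (h m) _)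

theorem wp_congr (φ : ℕ → Hm n) {x y : ℕ → Bool} {m : ℕ} (h : ∀ i < m, x i = y i) :
    wp φ x m = wp φ y m := by
  induction m with
  | zero => rfl
  | succ m ih =>
    rw [wp_succ, wp_succ, ih fun i hi => h i (by omega), h m (by omega)]

/-- the factors after the `k`-th -/
theorem wp_tail (φ : ℕ → Hm n) {x y : ℕ → Bool} {k : ℕ} (h : ∀ i, k ≤ i → x i = y i) (m : ℕ)
    (hm : k ≤ m) : (wp φ x k)⁻¹ * wp φ x m = (wp φ y k)⁻¹ * wp φ y m := by
  induction m, hm using Nat.le_induction with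
  | base => rw [inv_mul_cancel, inv_mul_cancel]
  | succ m hm ih =>
    rw [wp_succ, wp_succ, ← mul_assoc, ih, ← mul_assoc, h m hm]

theorem cont_wp (φ : ℕ → Hm n) (m : ℕ) :
    Continuous (fun q : (ℕ → Bool) × E n => wp φ q.1 m q.2) ∧
      Continuous (fun q : (ℕ → Bool) × E n => (wp φ q.1 m)⁻¹ q.2) := by
  induction m with
  | zero => exact ⟨continuous_snd, continuous_snd⟩
  | succ m ih =>
    have hc : ∀ ψ : Hm n, Continuous (fun q : (ℕ → Bool) × E n => (if q.1 m then ψ else 1 : Hm n) q.2) := by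
      intro ψ
      have h1 : (fun q : (ℕ → Bool) × E n => (if q.1 m then ψ else 1 : Hm n) q.2) =
          fun q => if q.1 m = true then ψ q.2 else q.2 := by
        funext q
        split_ifs <;> rfl
      rw [h1]
      have hcl : IsClopen {q : (ℕ → Bool) × E n | q.1 m = true} := by
        have h2 : Continuous fun q : (ℕ → Bool) × E n => q.1 m :=
          (continuous_apply m).comp continuous_fst
        exact (isClopen_discrete ({true} : Set Bool)).preimage h2
      refine Continuous.if (fun q hq => ?_) (ψ.continuous.comp continuous_snd) continuous_snd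
      rw [hcl.frontier_eq] at hq
      exact hq.elim
    refine ⟨?_, ?_⟩
    · exact ih.1.comp (continuous_fst.prodMk (hc (φ m)))
    · have h3 := (hc (φ m)⁻¹).comp (continuous_fst.prodMk ih.2)
      convert h3 using 1
      funext q
      change (wp φ q.1 m * (if q.1 m then φ m else 1))⁻¹ q.2 =
        (if q.1 m then (φ m)⁻¹ else 1 : Hm n) ((wp φ q.1 m)⁻¹ q.2)
      rw [mul_inv_rev, mul_apply]
      congr 1
      cases q.1 m
      · simp
      · simp

theorem HK_unif {K : Set (E n)} (hK : IsCompact K) {φ : Hm n} (h : φ ∈ HK n K) :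
    UniformContinuous φ ∧ UniformContinuous (φ⁻¹ : Hm n) :=
  (uconv_const hK h.1).2

/-- a sequence of factors which converges to `1` so fast that all the products converge -/
theorem exists_factors {K : Set (E n)} (hK : IsCompact K) (Q' : ℕ → Hm n → Prop)
    (h : ∀ m, ∀ δ : ℝ, 0 < δ → ∃ φ ∈ HK n K, Q' m φ ∧ ∀ p, dist (φ p) p < δ) :
    ∃ φ : ℕ → Hm n, (∀ m, φ m ∈ HK n K ∧ Q' m (φ m)) ∧
      ∀ m x p, dist (wp φ x (m + 1) p) (wp φ x m p) ≤ (1 / 2) ^ m ∧
        dist ((wp φ x (m + 1))⁻¹ p) ((wp φ x m)⁻¹ p) ≤ (1 / 2) ^ m := by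
  classical
  have hstep : ∀ (m : ℕ) (S : Set (Hm n)), S.Finite → S ⊆ HK n K → ∃ φ ∈ HK n K, Q' m φ ∧
      (∀ w ∈ S, ∀ p, dist (w (φ p)) (w p) ≤ (1 / 2) ^ m) ∧
      ∀ p, dist (φ⁻¹ p) p ≤ (1 / 2 : ℝ) ^ m := by
    intro m S hS hSK
    have hp : (0 : ℝ) < (1 / 2) ^ m := by positivity
    have h1 : ∃ δ : ℝ, 0 < δ ∧ ∀ w ∈ S, ∀ a b : E n, dist a b < δ → dist (w a) (w b) < (1 / 2) ^ m := by
      induction S, hS using Set.Finite.induction_on with
      | empty => exact ⟨1, one_pos, fun w hw => hw.elim⟩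
      | @insert a S ha hS ih =>
        obtain ⟨δ, hδ, hδ2⟩ := ih ((subset_insert _ _).trans hSK)
        obtain ⟨δ', hδ', hδ2'⟩ := Metric.uniformContinuous_iff.1
          (HK_unif hK (hSK (mem_insert _ _))).1 _ hp
        refine ⟨min δ δ', lt_min hδ hδ', fun w hw p q hpq => ?_⟩
        rcases hw with rfl | hw
        · exact hδ2' (hpq.trans_le (min_le_right _ _))
        · exact hδ2 w hw p q (hpq.trans_le (min_le_left _ _))
    obtain ⟨δ, hδ, hδ2⟩ := h1
    obtain ⟨φ, hφ1, hφ2, hφ3⟩ := h m (min δ ((1 / 2) ^ m)) (lt_min hδ hp)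
    refine ⟨φ, hφ1, hφ2, fun w hw p => ?_, fun p => ?_⟩
    · exact (hδ2 w hw _ _ ((hφ3 p).trans_le (min_le_left _ _))).le
    · have h2 := hφ3 (φ⁻¹ p)
      rw [apply_inv_self] at h2
      rw [dist_comm]
      exact (h2.trans_le (min_le_right _ _)).le
  let T := {S : Set (Hm n) // S.Finite ∧ S ⊆ HK n K}
  have hstep' : ∀ (m : ℕ) (S : T), ∃ φ ∈ HK n K, Q' m φ ∧
      (∀ w ∈ S.1, ∀ p, dist (w (φ p)) (w p) ≤ (1 / 2) ^ m) ∧
      ∀ p, dist (φ⁻¹ p) p ≤ (1 / 2 : ℝ) ^ m := fun m S => hstep m S.1 S.2.1 S.2.2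
  choose F hF1 hF2 hF3 hF4 using hstep'
  let nxt : ℕ → T → T := fun m S => ⟨S.1 ∪ (fun w => w * F m S) '' S.1,
    S.2.1.union (S.2.1.image _), union_subset S.2.2 (by
      rintro _ ⟨w, hw, rfl⟩
      exact HK_mul hK (S.2.2 hw) (hF1 m S))⟩
  let S : ℕ → T := fun m => Nat.rec ⟨{1}, finite_singleton _, by
    rintro _ rfl
    exact HK_one K⟩ (fun m S => nxt m S) m
  have hS : ∀ m, S (m + 1) = nxt m (S m) := fun m => rfl
  have hw : ∀ m x, wp (fun m => F m (S m)) x m ∈ (S m).1 := by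
    intro m x
    induction m with
    | zero => exact rfl
    | succ m ih =>
      rw [wp_succ, hS]
      cases hx : x m
      · left
        simpa using ih
      · right
        exact ⟨_, ih, by simp⟩
  refine ⟨fun m => F m (S m), fun m => ⟨hF1 _ _, hF2 _ _⟩, fun m x p => ?_⟩
  rw [wp_succ]
  cases hx : x m
  · simp only [Bool.false_eq_true, if_false, mul_one, dist_self]
    exact ⟨by positivity, by positivity⟩
  · simp only [if_true]
    refine ⟨?_, ?_⟩
    · rw [mul_apply]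
      exact hF3 m (S m) _ (hw m x) p
    · rw [mul_inv_rev, mul_apply]
      exact hF4 m (S m) _

/-- the infinite products -/
theorem infprod {K : Set (E n)} (hK : IsCompact K) (Q' : ℕ → Hm n → Prop)
    (h : ∀ m, ∀ δ : ℝ, 0 < δ → ∃ φ ∈ HK n K, Q' m φ ∧ ∀ p, dist (φ p) p < δ) :
    ∃ (φ : ℕ → Hm n) (Φ : (ℕ → Bool) → Hm n), (∀ m, φ m ∈ HK n K ∧ Q' m (φ m)) ∧
      (∀ x, Φ x ∈ HK n K) ∧ Continuous (fun x => io (Φ x)) ∧
      ∀ k x, ∃ a ∈ HK n K, ∃ b ∈ HK n K, Φ x = a * (if x k then φ k else 1) * b ∧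
        Φ (flip k x) = a * (if x k then 1 else φ k) * b := by
  obtain ⟨φ, hφ1, hφ2⟩ := exists_factors hK Q' h
  have hlim : ∀ x, ∃ y : Hm n, (∀ p, p ∉ K → y p = p) ∧ UConv (wp φ x) y := by
    intro x
    exact exists_limit hK (wp φ x) (fun m => (wp_HK hK (fun m => (hφ1 m).1) x m).1) 0
      (fun m _ p => (hφ2 m x p).1) fun m _ p => (hφ2 m x p).2
  choose Φ hΦ1 hΦ2 using hlim
  have hΦK : ∀ x, Φ x ∈ HK n K := fun x =>
    HK_closed (fun m => wp_HK hK (fun m => (hφ1 m).1) x m) (hΦ1 x) (hΦ2 x).1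
  -- rate of convergence
  have rate : ∀ (f : ℕ → E n → E n) (G : E n → E n),
      (∀ m p, dist (f (m + 1) p) (f m p) ≤ (1 / 2) ^ m) →
      (∀ p, Tendsto (fun m => f m p) atTop (𝓝 (G p))) → ∀ m p, dist (f m p) (G p) ≤ 2 * (1 / 2) ^ m := by
    intro f G h1 h2 m p
    have h3 := dist_le_of_le_geometric_of_tendsto (1 / 2) 1 (by norm_num)
      (fun m => by rw [dist_comm, one_mul]; exact h1 m p) (h2 p) m
    refine h3.trans_eq ?_
    ring
  have hpow : Tendsto (fun m : ℕ => 2 * (1 / 2 : ℝ) ^ m) atTop (𝓝 0) := by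
    have := (tendsto_pow_atTop_nhds_zero_of_lt_one (r := (1 / 2 : ℝ)) (by norm_num)
      (by norm_num)).const_mul 2
    rwa [mul_zero] at this
  refine ⟨φ, Φ, hφ1, hΦK, ?_, ?_⟩
  · have hu1 : TendstoUniformly (fun (m : ℕ) (q : (ℕ → Bool) × E n) => wp φ q.1 m q.2)
        (fun q => Φ q.1 q.2) atTop := by
      rw [Metric.tendstoUniformly_iff]
      intro ε hε
      filter_upwards [hpow.eventually (gt_mem_nhds hε)] with m hm q
      rw [dist_comm]
      exact (rate (fun m p => wp φ q.1 m p) (Φ q.1) (fun m p => (hφ2 m q.1 p).1)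
        (fun p => (hΦ2 q.1).1.tendsto_at p) m q.2).trans_lt hm
    have hu2 : TendstoUniformly (fun (m : ℕ) (q : (ℕ → Bool) × E n) => (wp φ q.1 m)⁻¹ q.2)
        (fun q => (Φ q.1)⁻¹ q.2) atTop := by
      rw [Metric.tendstoUniformly_iff]
      intro ε hε
      filter_upwards [hpow.eventually (gt_mem_nhds hε)] with m hm q
      rw [dist_comm]
      exact (rate (fun m p => (wp φ q.1 m)⁻¹ p) ((Φ q.1)⁻¹ : Hm n) (fun m p => (hφ2 m q.1 p).2)
        (fun p => (uc_inv (hΦ2 q.1)).1.tendsto_at p) m q.2).trans_lt hm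
    have c1 := hu1.continuous (Frequently.of_forall fun m => (cont_wp φ m).1)
    have c2 := hu2.continuous (Frequently.of_forall fun m => (cont_wp φ m).2)
    refine Continuous.prodMk ?_ ?_
    · exact ContinuousMap.continuous_of_continuous_uncurry _ c1
    · exact ContinuousMap.continuous_of_continuous_uncurry _ c2
  · intro k x
    have hT : ∀ x : ℕ → Bool, ∀ k, Φ x = wp φ x k * ((wp φ x k)⁻¹ * Φ x) := fun x k => by
      rw [mul_inv_cancel_left]
    refine ⟨wp φ x k, wp_HK hK (fun m => (hφ1 m).1) x k, (wp φ x (k + 1))⁻¹ * Φ x,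
      HK_mul hK (HK_inv hK (wp_HK hK (fun m => (hφ1 m).1) x _)) (hΦK x), ?_, ?_⟩
    · rw [← wp_succ, mul_inv_cancel_left]
    · have e1 : (wp φ x (k + 1))⁻¹ * Φ x = (wp φ (flip k x) (k + 1))⁻¹ * Φ (flip k x) := by
        have t1 : UConv (fun m => (wp φ x (k + 1))⁻¹ * wp φ x m) ((wp φ x (k + 1))⁻¹ * Φ x) :=
          uc_mul (uconv_const hK (HK_inv hK (wp_HK hK (fun m => (hφ1 m).1) x _)).1) (hΦ2 x)
        have t2 : UConv (fun m => (wp φ (flip k x) (k + 1))⁻¹ * wp φ (flip k x) m)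
            ((wp φ (flip k x) (k + 1))⁻¹ * Φ (flip k x)) :=
          uc_mul (uconv_const hK (HK_inv hK (wp_HK hK (fun m => (hφ1 m).1) _ _)).1) (hΦ2 _)
        refine Homeomorph.ext fun p => ?_
        refine tendsto_nhds_unique_of_eventuallyEq (t1.1.tendsto_at p) (t2.1.tendsto_at p) ?_
        filter_upwards [eventually_ge_atTop (k + 1)] with m hm
        rw [wp_tail φ (x := x) (y := flip k x) (k := k + 1)
          (fun i hi => (flip_ne (by omega) x).symm) m hm]
      have e2 : wp φ x k = wp φ (flip k x) k :=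
        wp_congr φ fun i hi => (flip_ne (by omega) x).symm
      have e3 : (if x k then (1 : Hm n) else φ k) = if flip k x k then φ k else 1 := by
        rw [flip_self]
        cases x k <;> rfl
      rw [e1, e2, e3, ← wp_succ, mul_inv_cancel_left]

end Run7.h575.HD
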