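import Pool.Agent.Run7.h575.HD.C3

/-!
# Uniform bounds and perfect sets of cosets
-/

set_option autoImplicit false

open Set MeasureTheory Filter Topology Function
open Pool.Agent.Y453.HB
open Pool.Agent.Y309.HB
open Pool.Agent.N235.DH

namespace Run7.h575.HD

variable {n : ℕ}

theorem mem_io {S : Set (Hm n)} {f : Hm n} : io f ∈ io '' S ↔ f ∈ S := by
  constructor
  · rintro ⟨g, hg, hgf⟩
    rwa [← io_inj hgf]
  · exact fun h => ⟨f, h, rfl⟩

/-- **Uniform bound.** If the uniform limits `HK n K` are covered by an increasing sequence of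
analytic sets, compatible with the group operations, then one of these sets contains all elements
of `HK n K` near the identity. -/
theorem bdd {K : Set (E n)} (hK : IsCompact K) (P : ℕ → Set (Hm n)) (hmono : Monotone P)
    (hAn : ∀ m, An (P m)) (hinv : ∀ m, ∀ f ∈ P m, f⁻¹ ∈ P m)
    (hmul : ∀ m, ∃ m', ∀ f ∈ P m, ∀ g ∈ P m, f * g ∈ P m')
    (hconj : ∀ m, ∃ m', ∀ f ∈ P m, ∀ a ∈ HK n K, a * f * a⁻¹ ∈ P m')
    (hcov : ∀ f ∈ HK n K, ∃ m, f ∈ P m) :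
    ∃ m, ∃ δ : ℝ, 0 < δ ∧ ∀ φ ∈ HK n K, (∀ p, dist (φ p) p < δ) → φ ∈ P m := by
  by_contra hcon
  push Not at hcon
  obtain ⟨φ, Φ, hφ, hΦK, hΦc, hΦ⟩ := infprod hK (fun m φ => φ ∉ P m) (fun m δ hδ => by
    obtain ⟨φ, h1, h2, h3⟩ := hcon m δ hδ
    exact ⟨φ, h1, h3, h2⟩)
  have hA : ∀ m, AnalyticSet {x | Φ x ∈ P m} := by
    intro m
    have h1 := AnalyticSet.preimage (hAn m) hΦc
    convert h1 using 1
    ext x
    exact mem_io.symm
  have hex : ∃ m, ¬ IsMeagre {x | Φ x ∈ P m} := by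
    by_contra hc
    push Not at hc
    have h1 : (univ : Set (ℕ → Bool)) ⊆ ⋃ m, {x | Φ x ∈ P m} := by
      intro x _
      obtain ⟨m, hm⟩ := hcov _ (hΦK x)
      exact mem_iUnion.2 ⟨m, hm⟩
    exact not_isMeagre_of_isOpen isOpen_univ univ_nonempty ((isMeagre_iUnion hc).mono h1)
  obtain ⟨m, hm⟩ := hex
  obtain ⟨N, hN⟩ := exists_flip (hA m) hm
  obtain ⟨m1, hm1⟩ := hmul m
  obtain ⟨m2, hm2⟩ := hconj m1
  obtain ⟨x, hx1, hx2⟩ := hN (max N m2) (le_max_left _ _)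
  set k := max N m2 with hk
  obtain ⟨a, ha, b, hb, e1, e2⟩ := hΦ k x
  have hx1' : Φ x ∈ P m := hx1
  have hx2' : Φ (flip k x) ∈ P m := hx2
  have h3 := hm1 _ hx1' _ (hinv m _ hx2')
  have h4 := hm2 _ h3 _ (HK_inv hK ha)
  apply (hφ k).2
  apply hmono (le_max_right N m2)
  rw [e1, e2] at h4
  cases hxk : x k
  · simp only [hxk, Bool.false_eq_true, if_false] at h4
    have e3 : a⁻¹ * (a * 1 * b * (a * φ k * b)⁻¹) * a⁻¹⁻¹ = (φ k)⁻¹ := by group
    rw [e3] at h4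
    have := hinv _ _ h4
    rwa [inv_inv] at this
  · simp only [hxk, if_true] at h4
    have e3 : a⁻¹ * (a * φ k * b * (a * 1 * b)⁻¹) * a⁻¹⁻¹ = φ k := by group
    rwa [e3] at h4

/-- **Many cosets.** If a subgroup is analytic, normalised by `HK n K`, and does not contain the
elements of `HK n K` near the identity, then there is a perfect set of cosets. -/
theorem perfect_of {K : Set (E n)} (hK : IsCompact K) (N : Subgroup (Hm n))
    (hN : An (N : Set (Hm n))) (hnorm : ∀ a ∈ HK n K, ∀ f ∈ N, a * f * a⁻¹ ∈ N)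
    (h : ∀ δ : ℝ, 0 < δ → ∃ φ ∈ HK n K, φ ∉ N ∧ ∀ p, dist (φ p) p < δ) :
    ∃ c : (ℕ → Bool) → Hm n, (∀ b, c b ∈ HK n K) ∧ ∀ b b', b ≠ b' → (c b)⁻¹ * c b' ∉ N := by
  obtain ⟨φ, Φ, hφ, hΦK, hΦc, hΦ⟩ := infprod hK (fun _ φ => φ ∉ N) (fun _ δ hδ => h δ hδ)
  have hcont : Continuous fun p : (ℕ → Bool) × (ℕ → Bool) =>
      mulC (invC (io (Φ p.1)), io (Φ p.2)) :=
    cont_mul (cont_inv (hΦc.comp continuous_fst)) (hΦc.comp continuous_snd)
  have hR : AnalyticSet {p : (ℕ → Bool) × (ℕ → Bool) | (Φ p.1)⁻¹ * Φ p.2 ∈ N} := by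
    have : PolishSpace ((ℕ → Bool) × (ℕ → Bool)) := polish_of _
    have h1 := AnalyticSet.preimage hN hcont
    convert h1 using 1
    ext p
    exact (mem_io (S := (N : Set (Hm n))) (f := (Φ p.1)⁻¹ * Φ p.2)).symm
  have hsec : ∀ x, IsMeagre {y | (Φ x)⁻¹ * Φ y ∈ N} := by
    intro x
    by_contra hc
    have h2 : AnalyticSet {y | (Φ x)⁻¹ * Φ y ∈ N} :=
      AnalyticSet.preimage hR (f := fun y => (x, y)) (continuous_const.prodMk continuous_id)
    obtain ⟨k, hk⟩ := exists_flip h2 hc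
    obtain ⟨y, hy1, hy2⟩ := hk k le_rfl
    obtain ⟨a, ha, b, hb, e1, e2⟩ := hΦ k y
    have h3 : (Φ y)⁻¹ * Φ (flip k y) ∈ N := by
      have := N.mul_mem (N.inv_mem (show (Φ x)⁻¹ * Φ y ∈ N from hy1))
        (show (Φ x)⁻¹ * Φ (flip k y) ∈ N from hy2)
      have e : ((Φ x)⁻¹ * Φ y)⁻¹ * ((Φ x)⁻¹ * Φ (flip k y)) = (Φ y)⁻¹ * Φ (flip k y) := by group
      rwa [e] at this
    have h4 := hnorm b hb _ h3
    apply (hφ k).2
    rw [e1, e2] at h4
    cases hyk : y k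
    · simp only [hyk, Bool.false_eq_true, if_false] at h4
      have e3 : b * ((a * 1 * b)⁻¹ * (a * φ k * b)) * b⁻¹ = φ k := by group
      rwa [e3] at h4
    · simp only [hyk, if_true] at h4
      have e3 : b * ((a * φ k * b)⁻¹ * (a * 1 * b)) * b⁻¹ = (φ k)⁻¹ := by group
      rw [e3] at h4
      have := N.inv_mem h4
      rwa [inv_inv] at this
  obtain ⟨h1, -, h2⟩ := exists_perfect (fun x y => (Φ x)⁻¹ * Φ y ∈ N) hR hsec
  exact ⟨fun b => Φ (h1 b), fun b => hΦK _, h2⟩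

end Run7.h575.HD
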