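import Pool.Agent.R773.HN.Defs

/-!
# Definitions for the results on the Hamiltonian homeomorphisms of the ball

`E n = ℝ^{2n}`, `HamHomeo n` (`Pool/Agent/R773/HN/Defs.lean`): the group of compactly supported
Hamiltonian homeomorphisms of the open unit ball, the same as in the frozen statement S13311.
`φ.1.map x` is the value of `φ` at `x`.
-/

set_option autoImplicit false

open Set MeasureTheory
open Pool.Agent.Y453.HB (E)
open Pool.Agent.R773.HN (HamHomeo)
open scoped commutatorElement

namespace Run7.h575.HD

/-- the elements of `X` as points of the space of continuous maps -/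
def mapsOf {n : ℕ} (X : Set (HamHomeo n)) : Set C(E n, E n) :=
  {f | ∃ φ ∈ X, ∀ x, f x = φ.1.map x}

/-- `X` is an analytic (Suslin) subset of the space of continuous maps with the topology of locally
uniform convergence; for instance `X` is countable, or Borel -/
def IsAnalyticIn {n : ℕ} (X : Set (HamHomeo n)) : Prop := AnalyticSet (mapsOf X)

/-- the index is at least the cardinality of the continuum -/
def LargeIndex {G : Type} [Group G] (N : Subgroup G) : Prop :=
  Cardinal.continuum ≤ Cardinal.mk (G ⧸ N)

/-- a simple normal subgroup which is contained in all nontrivial normal subgroups -/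
structure IsSmallestNormal {G : Type} [Group G] (S : Subgroup G) : Prop where
  normal : S.Normal
  simple : IsSimpleGroup S
  le : ∀ N : Subgroup G, N.Normal → N ≠ ⊥ → S ≤ N

/-- `HamBar(B(r))`: the Hamiltonian homeomorphisms of the ball of radius `r`, which are the
conjugates of the elements of `HamHomeo n` by the dilation `x ↦ r x` -/
def HamBall (n : ℕ) (r : ℝ) : Set (HamHomeo n) :=
  {φ | ∃ ψ : HamHomeo n, ∀ x : E n, φ.1.map (r • x) = r • ψ.1.map x}

/-- products of `m` elements of `Y` -/
def Pw {G : Type*} [Group G] (Y : Set G) : ℕ → Set G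
  | 0 => {1}
  | m + 1 => {k | ∃ f ∈ Pw Y m, ∃ g ∈ Y, k = f * g}

/-- the conjugates of `g` and `g⁻¹` -/
def Conjs {G : Type} [Group G] (g : G) : Set G := {k | ∃ a : G, k = a * g * a⁻¹ ∨ k = a * g⁻¹ * a⁻¹}

/-- a conjugation invariant norm -/
structure IsConjNorm {G : Type} [Group G] (ν : G → ℝ) : Prop where
  inv : ∀ f, ν f⁻¹ = ν f
  mul : ∀ f g, ν (f * g) ≤ ν f + ν g
  conj : ∀ f g, ν (g * f * g⁻¹) = ν f

end Run7.h575.HD
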