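import Pool.Agent.Run7.h575.HD.C4
import Pool.Agent.R773.HN.Fin3
import Pool.Agent.Run7.h575.HD.Defs

/-!
# Words, exhaustion of the ball, and reduction to small elements
-/

set_option autoImplicit false

open Set MeasureTheory Filter Topology Function
open Pool.Agent.Y453.HB
open Pool.Agent.Y309.HB
open Pool.Agent.N235.DH
open Pool.Agent.R773.HN

namespace Run7.h575.HD

variable {n : ℕ}

/-! ### Products of `m` elements -/

section

variable {G : Type*} [Group G] {Y Y' : Set G}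

theorem Pw_mono (h1 : (1 : G) ∈ Y') (h : Y ⊆ Y') {m m' : ℕ} (hm : m ≤ m') : Pw Y m ⊆ Pw Y' m' := by
  induction m' generalizing m with
  | zero =>
    obtain rfl : m = 0 := by omega
    exact subset_rfl
  | succ m' ih =>
    cases m with
    | zero =>
      intro f hf
      have hf' : f = 1 := hf
      subst hf'
      exact ⟨1, ih (Nat.zero_le _) rfl, 1, h1, by rw [mul_one]⟩
    | succ m =>
      rintro _ ⟨f, hf, g, hg, rfl⟩
      exact ⟨f, ih (by omega) hf, g, h hg, rfl⟩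

theorem Pw_mul {a b : ℕ} {f g : G} (hf : f ∈ Pw Y a) (hg : g ∈ Pw Y b) : f * g ∈ Pw Y (a + b) := by
  induction b generalizing g with
  | zero =>
    have hg' : g = 1 := hg
    rwa [hg', mul_one]
  | succ b ih =>
    obtain ⟨g, hg, k, hk, rfl⟩ := hg
    exact ⟨f * g, ih hg, k, hk, by rw [mul_assoc]⟩

theorem Pw_one {g : G} (hg : g ∈ Y) : g ∈ Pw Y 1 := ⟨1, rfl, g, hg, by rw [one_mul]⟩

theorem Pw_inv (h : ∀ g ∈ Y, g⁻¹ ∈ Y) {a : ℕ} {f : G} (hf : f ∈ Pw Y a) : f⁻¹ ∈ Pw Y a := by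
  induction a generalizing f with
  | zero =>
    have hf' : f = 1 := hf
    rw [hf', inv_one]
    rfl
  | succ a ih =>
    obtain ⟨f, hf, g, hg, rfl⟩ := hf
    rw [mul_inv_rev, add_comm]
    exact Pw_mul (Pw_one (h g hg)) (ih hf)

theorem Pw_map {c : G} (h : ∀ g ∈ Y, c * g * c⁻¹ ∈ Y') {a : ℕ} {f : G} (hf : f ∈ Pw Y a) :
    c * f * c⁻¹ ∈ Pw Y' a := by
  induction a generalizing f with
  | zero =>
    have hf' : f = 1 := hf
    rw [hf', mul_one, mul_inv_cancel]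
    rfl
  | succ a ih =>
    obtain ⟨f, hf, g, hg, rfl⟩ := hf
    exact ⟨_, ih hf, _, h g hg, by group⟩

/-- elements of the subgroup generated by an increasing union -/
theorem Pw_closure {Y : ℕ → Set G} (hmono : Monotone Y) (h1 : ∀ m, (1 : G) ∈ Y m)
    (hinv : ∀ m, ∀ g ∈ Y m, g⁻¹ ∈ Y m) {f : G} (hf : f ∈ Subgroup.closure (⋃ m, Y m)) :
    ∃ m, f ∈ Pw (Y m) m := by
  have hup : ∀ {m m' : ℕ}, m ≤ m' → Pw (Y m) m ⊆ Pw (Y m') m' := fun {m m'} h =>
    Pw_mono (h1 m') (hmono h) h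
  induction hf using Subgroup.closure_induction with
  | mem x hx =>
    obtain ⟨m, hm⟩ := mem_iUnion.1 hx
    exact ⟨m + 1, Pw_mono (h1 _) (hmono (Nat.le_succ m)) (by omega) (Pw_one hm)⟩
  | one => exact ⟨0, rfl⟩
  | mul x y _ _ hx hy =>
    obtain ⟨a, ha⟩ := hx
    obtain ⟨b, hb⟩ := hy
    exact ⟨a + b, Pw_mul (Pw_mono (h1 _) (hmono (Nat.le_add_right a b)) le_rfl ha)
      (Pw_mono (h1 _) (hmono (Nat.le_add_left b a)) le_rfl hb)⟩
  | inv x _ hx =>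
    obtain ⟨a, ha⟩ := hx
    exact ⟨a, Pw_inv (hinv a) ha⟩

theorem Pw_sub {N : Subgroup G} (h : Y ⊆ N) (m : ℕ) : Pw Y m ⊆ N := by
  induction m with
  | zero =>
    rintro f rfl
    exact N.one_mem
  | succ m ih =>
    rintro _ ⟨f, hf, g, hg, rfl⟩
    exact N.mul_mem (ih hf) (h hg)

end

theorem Pw_An {Y : Set (Hm n)} (h : An Y) (m : ℕ) : An (Pw Y m) := by
  induction m with
  | zero => exact An_singleton 1
  | succ m ih => exact An_mul ih h

/-! ### Exhaustion -/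

/-- the closed ball of radius `1 - 1 / (m + 2)` -/
def Kb (n m : ℕ) : Set (E n) := D (0 : E n) (1 - 1 / ((m : ℝ) + 2))

theorem Kb_compact (m : ℕ) : IsCompact (Kb n m) := D_compact _ _

theorem D_mono {r s : ℝ} (h : r ≤ s) : D (0 : E n) r ⊆ D (0 : E n) s := fun x hx => le_trans hx h

theorem Kb_mono {m m' : ℕ} (h : m ≤ m') : Kb n m ⊆ Kb n m' := by
  apply D_mono
  have h1 : (m : ℝ) ≤ m' := by exact_mod_cast h
  have h2 : 1 / ((m' : ℝ) + 2) ≤ 1 / ((m : ℝ) + 2) := one_div_le_one_div_of_le (by positivity)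
    (by linarith)
  linarith

theorem D_sub_ball1 {r : ℝ} (hr : r < 1) : D (0 : E n) r ⊆ {p : E n | Q p < 1} := by
  intro x hx
  have h1 : nm (x - 0) ≤ r := hx
  rw [sub_zero] at h1
  have h2 : nm x < 1 := h1.trans_lt hr
  have h3 : √(Q x) < 1 := h2
  rw [Real.sqrt_lt' one_pos, one_pow] at h3
  exact h3

theorem Kb_ball (m : ℕ) : Kb n m ⊆ {p : E n | Q p < 1} :=
  D_sub_ball1 (by
    have : (0 : ℝ) < 1 / ((m : ℝ) + 2) := by positivity
    linarith)

theorem sub_Kb {K : Set (E n)} (hK : IsCompact K) (hKQ : K ⊆ {p : E n | Q p < 1}) :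
    ∃ m, K ⊆ Kb n m := by
  rcases K.eq_empty_or_nonempty with rfl | hne
  · exact ⟨0, empty_subset _⟩
  obtain ⟨x, hx, hmax⟩ := hK.exists_isMaxOn hne (nm_cont (n := n)).continuousOn
  have h1 : nm x < 1 := nm_lt_one (hKQ hx)
  obtain ⟨m, hm⟩ := exists_nat_gt (1 / (1 - nm x))
  refine ⟨m, fun y hy => ?_⟩
  have h2 : nm y ≤ nm x := hmax hy
  change nm (y - 0) ≤ 1 - 1 / ((m : ℝ) + 2)
  rw [sub_zero]
  have h3 : 1 / ((m : ℝ) + 2) ≤ 1 - nm x := by
    rw [div_lt_iff₀ (by linarith)] at hm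
    rw [div_le_iff₀ (by positivity)]
    nlinarith
  linarith

theorem HK_mono {K K' : Set (E n)} (h : K ⊆ K') : HK n K ⊆ HK n K' := by
  rintro φ ⟨h1, u, h2, h3, h4⟩
  exact ⟨fun x hx => h1 x fun h' => hx (h h'), u, fun k x hx => h2 k x fun h' => hx (h h'), h3, h4⟩

theorem mem_HamBar {φ : Hm n} : φ ∈ HamBar n ↔ ∃ m, φ ∈ HK n (Kb n m) := by
  rw [mem_iff Pool.Agent.Y907.HB.mul Pool.Agent.Y510.HB.inv uc]
  constructor
  · rintro ⟨K, hK, hKQ, h1, u, h2, h3, h4⟩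
    obtain ⟨m, hm⟩ := sub_Kb hK hKQ
    exact ⟨m, HK_mono hm ⟨h1, u, h2, h3, h4⟩⟩
  · rintro ⟨m, hm⟩
    exact HK_hamBar (Kb_compact m) (Kb_ball m) hm

theorem HK_sub_HamBar {m : ℕ} {φ : Hm n} (h : φ ∈ HK n (Kb n m)) : φ ∈ HamBar n :=
  mem_HamBar.2 ⟨m, h⟩

theorem ham_HamBar {u : Hm n} (hu : IsHam u) : u ∈ HamBar n :=
  Subgroup.subset_closure (ham_mem hu)

/-- a subgroup normalised by `HamBar n` which contains the elements near the identity, of all the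
`HK n (Kb n m)`, contains `HamBar n` -/
theorem all_of_small (N : Subgroup (Hm n)) (hnorm : ∀ a ∈ HamBar n, ∀ f ∈ N, a * f * a⁻¹ ∈ N)
    (h : ∀ m, ∃ δ : ℝ, 0 < δ ∧ ∀ φ ∈ HK n (Kb n m), (∀ p, dist (φ p) p < δ) → φ ∈ N) :
    HamBar n ≤ N := by
  obtain ⟨δ, hδ, hδ2⟩ := h 0
  set ε : ℝ := min (1 / 2) (δ / 4) with hε
  have hε0 : 0 < ε := by positivity
  have hε1 : ε < 1 := (min_le_left _ _).trans_lt (by norm_num)
  have hsmall : ∀ v ∈ small n ε, v ∈ N := by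
    rintro v ⟨hv, q, ρ, hρ, hρε, hq, hsupp⟩
    obtain ⟨κ, hκ1, -, hκ2⟩ := hT n 0 q (-q) ρ ((nm q + ρ + 1) / 2) hρ
      (by rw [nm_zero]; linarith) (by rw [sub_zero]; linarith)
      (by
        rw [add_neg_cancel, sub_zero, nm_zero]
        have := nm_nonneg q
        linarith)
    have hκ3 : ∀ x, x ∉ D (0 : E n) ρ → (κ * v * κ⁻¹) x = x := by
      intro x hx
      rw [mul_apply, mul_apply]
      have h1 : κ⁻¹ x ∉ D q ρ := by
        intro h2
        have h3 := hκ2 _ h2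
        rw [apply_inv_self] at h3
        apply hx
        rw [h3]
        change nm (κ⁻¹ x + -q - 0) ≤ ρ
        have h4 : nm (κ⁻¹ x - q) ≤ ρ := h2
        rwa [sub_zero, ← sub_eq_add_neg]
      rw [hsupp _ h1, apply_inv_self]
    have hmem : κ * v * κ⁻¹ ∈ HK n (Kb n 0) := by
      refine HK_ham (Pool.Agent.Y907.HB.mul n _ _ (Pool.Agent.Y907.HB.mul n _ _ hκ1 hv)
        ((Pool.Agent.Y510.HB.inv n).2 _ hκ1)) fun x hx => hκ3 x fun h' => hx ?_
      refine D_mono ?_ h'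
      have : ρ ≤ 1 / 2 := hρε.trans (min_le_left _ _)
      norm_num
      linarith
    have h5 : κ * v * κ⁻¹ ∈ N := by
      refine hδ2 _ hmem fun p => ?_
      by_cases hp : p ∈ D (0 : E n) ρ
      · have h6 : (κ * v * κ⁻¹) p ∈ D (0 : E n) ρ := Supp.maps hκ3 hp
        rw [dist_eq_norm]
        have e : (κ * v * κ⁻¹) p - p = ((κ * v * κ⁻¹) p - 0) + -(p - 0) := by simp [sub_eq_add_neg]
        rw [e]
        refine (norm_le_nm _).trans_lt ((nm_add _ _).trans_lt ?_)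
        rw [nm_neg]
        have h7 : nm ((κ * v * κ⁻¹) p - 0) ≤ ρ := h6
        have h8 : nm (p - 0) ≤ ρ := hp
        have h9 : ρ ≤ δ / 4 := hρε.trans (min_le_right _ _)
        linarith
      · rw [hκ3 p hp, dist_self]
        exact hδ
    have h6 := hnorm κ⁻¹ ((HamBar n).inv_mem (ham_HamBar hκ1)) _ h5
    have e : κ⁻¹ * (κ * v * κ⁻¹) * κ⁻¹⁻¹ = v := by group
    rwa [e] at h6
  have hham : ∀ u : Hm n, IsHam u → u ∈ N := by
    intro u hu
    have h1 := hFr n u hu ε hε0 hε1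
    exact (Subgroup.closure_le N).2 hsmall h1
  intro φ hφ
  obtain ⟨m, hm⟩ := mem_HamBar.1 hφ
  obtain ⟨δ', hδ', hδ2'⟩ := h m
  obtain ⟨h1, u, hu1, hu2, hu3⟩ := id hm
  obtain ⟨k, hk⟩ := (Metric.tendstoUniformly_iff.1 hu3 δ' hδ').exists
  have hk1 : φ * (u k)⁻¹ ∈ N := by
    refine hδ2' _ (HK_mul (Kb_compact m) hm (HK_inv (Kb_compact m) (HK_ham (hu2 k) (hu1 k))))
      fun p => ?_
    have h2 := hk ((u k)⁻¹ p)
    rw [apply_inv_self] at h2
    rwa [mul_apply]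
  have h2 := N.mul_mem hk1 (hham _ (hu2 k))
  rwa [inv_mul_cancel_right] at h2

end Run7.h575.HD
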