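import Pool.Agent.Run7.h575.HD.C5
import Pool.Agent.Run7.h575.HD.Defs

/-!
# Analytic normal subgroups of the group of Hamiltonian homeomorphisms
-/

set_option autoImplicit false

open Set MeasureTheory Filter Topology Function
open Pool.Agent.Y453.HB
open Pool.Agent.Y309.HB
open Pool.Agent.N235.DH
open Pool.Agent.R773.HN
open scoped commutatorElement Cardinal

namespace Run7.h575.HD

variable {n : ℕ}

/-- the underlying set of homeomorphisms -/
def und (X : Set (HamBar n)) : Set (Hm n) := (fun φ : HamBar n => (φ : Hm n)) '' X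

theorem An_und {X : Set (HamBar n)} (hX : IsAnalyticIn X) : An (und X) := by
  have h1 : AnalyticSet ((Prod.fst ⁻¹' mapsOf X) : Set (CC n)) :=
    AnalyticSet.preimage hX continuous_fst
  have c1 : Continuous fun p : CC n => p.1.comp p.2 :=
    Continuous.compCM (X := E n) (Y := E n) (Z := E n) continuous_fst continuous_snd
  have c2 : Continuous fun p : CC n => p.2.comp p.1 :=
    Continuous.compCM (X := E n) (Y := E n) (Z := E n) continuous_snd continuous_fst
  have h2 : IsClosed {p : CC n | p.1.comp p.2 = ContinuousMap.id (E n) ∧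
      p.2.comp p.1 = ContinuousMap.id (E n)} :=
    (isClosed_eq c1 continuous_const).inter (isClosed_eq c2 continuous_const)
  have h3 := analytic_inter h1 h2.analyticSet
  unfold An
  convert h3 using 1
  ext p
  constructor
  · rintro ⟨_, ⟨φ, hφ, rfl⟩, rfl⟩
    refine ⟨⟨φ, hφ, fun x => rfl⟩, ?_, ?_⟩
    · ext1 x
      exact (φ : Hm n).apply_symm_apply x
    · ext1 x
      exact (φ : Hm n).symm_apply_apply x
  · rintro ⟨⟨φ', hφ, hx⟩, h4, h5⟩
    obtain ⟨φ, rfl⟩ : ∃ φ : HamBar n, φ = φ' := ⟨φ', rfl⟩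
    change ∀ x, p.1 x = (φ : Hm n) x at hx
    refine ⟨(φ : Hm n), ⟨φ, hφ, rfl⟩, ?_⟩
    have e1 : (⟨(φ : Hm n), (φ : Hm n).continuous⟩ : C(E n, E n)) = p.1 :=
      ContinuousMap.ext fun x => (hx x).symm
    refine Prod.ext e1 ?_
    ext1 x
    have h6 : p.1 (p.2 x) = x := DFunLike.congr_fun h4 x
    change (φ : Hm n).symm x = p.2 x
    rw [Homeomorph.symm_apply_eq, ← hx, h6]

theorem analyticIn_of {X : Set (HamBar n)} (h : An (und X)) : IsAnalyticIn X := by
  have h1 := AnalyticSet.image_of_continuous h continuous_fst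
  unfold IsAnalyticIn
  convert h1 using 1
  ext f
  constructor
  · rintro ⟨φ', hφ, hx⟩
    obtain ⟨φ, rfl⟩ : ∃ φ : HamBar n, φ = φ' := ⟨φ', rfl⟩
    exact ⟨io (φ : Hm n), ⟨(φ : Hm n), ⟨φ, hφ, rfl⟩, rfl⟩, ContinuousMap.ext fun x => (hx x).symm⟩
  · rintro ⟨_, ⟨_, ⟨φ, hφ, rfl⟩, rfl⟩, rfl⟩
    exact ⟨φ, hφ, fun x => rfl⟩

theorem analyticIn_countable {X : Set (HamBar n)} (h : X.Countable) : IsAnalyticIn X := by
  have h1 : (mapsOf X).Countable := by
    have h2 : mapsOf X ⊆ (fun φ : HamBar n => (⟨(φ : Hm n), (φ : Hm n).continuous⟩ : C(E n, E n))) '' X := by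
      rintro f ⟨φ, hφ, hx⟩
      exact ⟨φ, hφ, ContinuousMap.ext fun x => (hx x).symm⟩
    exact (h.image _).mono h2
  unfold IsAnalyticIn
  have h2 : mapsOf X = ⋃ f : mapsOf X, {(f : C(E n, E n))} := by
    ext f
    simp
  have := h1.to_subtype
  rw [h2]
  exact AnalyticSet.iUnion fun f => isClosed_singleton.analyticSet

/-- the conjugates, by the uniform limits supported in the `m`-th ball -/
def Yc (T : Set (Hm n)) (m : ℕ) : Set (Hm n) :=
  {k | ∃ f ∈ HK n (Kb n m), ∃ g ∈ T, k = f * g * f⁻¹}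

/-- the elements of `T`, their inverses, and `1` -/
def sy (T : Set (Hm n)) : Set (Hm n) := {1} ∪ (T ∪ {k | ∃ f ∈ T, k = f⁻¹})

theorem An_union {S T : Set (Hm n)} (hS : An S) (hT : An T) : An (S ∪ T) := by
  have h : S ∪ T = ⋃ b : Bool, bif b then S else T := by
    ext x
    simp [or_comm]
  rw [h]
  refine An_iUnion fun b => ?_
  cases b
  · exact hT
  · exact hS

theorem An_sy {T : Set (Hm n)} (h : An T) : An (sy T) :=
  An_union (An_singleton 1) (An_union h (An_inv h))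

theorem sy_one (T : Set (Hm n)) : (1 : Hm n) ∈ sy T := Or.inl rfl

theorem sy_inv {T : Set (Hm n)} {f : Hm n} (h : f ∈ sy T) : f⁻¹ ∈ sy T := by
  rcases h with h | h | ⟨g, hg, rfl⟩
  · have : f = 1 := h
    rw [this, inv_one]
    exact sy_one T
  · exact Or.inr (Or.inr ⟨f, h, rfl⟩)
  · rw [inv_inv]
    exact Or.inr (Or.inl hg)

theorem Yc_mono (T : Set (Hm n)) : Monotone (Yc T) := by
  rintro m m' hm _ ⟨f, hf, g, hg, rfl⟩
  exact ⟨f, HK_mono (Kb_mono hm) hf, g, hg, rfl⟩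

theorem Yc_one {T : Set (Hm n)} (h : (1 : Hm n) ∈ T) (m : ℕ) : (1 : Hm n) ∈ Yc T m :=
  ⟨1, HK_one _, 1, h, by group⟩

theorem Yc_inv {T : Set (Hm n)} (h : ∀ f ∈ T, f⁻¹ ∈ T) (m : ℕ) : ∀ f ∈ Yc T m, f⁻¹ ∈ Yc T m := by
  rintro _ ⟨f, hf, g, hg, rfl⟩
  exact ⟨f, hf, g⁻¹, h g hg, by group⟩

theorem Yc_conj {T : Set (Hm n)} {m : ℕ} {a : Hm n} (ha : a ∈ HK n (Kb n m)) :
    ∀ f ∈ Yc T m, a * f * a⁻¹ ∈ Yc T m := by
  rintro _ ⟨f, hf, g, hg, rfl⟩
  exact ⟨a * f, HK_mul (Kb_compact m) ha hf, g, hg, by group⟩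

theorem An_Yc {T : Set (Hm n)} (h : An T) (m : ℕ) : An (Yc T m) := An_conj (An_HK (Kb_compact m)) h

/-- the normal closure in `HamBar n`, as a set of homeomorphisms -/
theorem nc_eq (X : Set (HamBar n)) :
    (((Subgroup.normalClosure X).map (HamBar n).subtype : Subgroup (Hm n)) : Set (Hm n)) =
      ⋃ m, Pw (Yc (sy (und X)) m) m := by
  have hmono := Yc_mono (sy (und X))
  have h1 := Yc_one (sy_one (und X))
  have hinv := Yc_inv (T := sy (und X)) fun f hf => sy_inv hf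
  have hsub : ∀ m, Yc (sy (und X)) m ⊆
      (((Subgroup.normalClosure X).map (HamBar n).subtype : Subgroup (Hm n)) : Set (Hm n)) := by
    rintro m _ ⟨f, hf, g, hg, rfl⟩
    have hgN : ∃ g' : HamBar n, (g' : Hm n) = g ∧ g' ∈ Subgroup.normalClosure X := by
      rcases hg with hg | ⟨φ, hφ, rfl⟩ | ⟨_, ⟨φ, hφ, rfl⟩, rfl⟩
      · exact ⟨1, (show g = 1 from hg).symm, Subgroup.one_mem _⟩
      · exact ⟨φ, rfl, Subgroup.subset_normalClosure hφ⟩
      · exact ⟨φ⁻¹, rfl, Subgroup.inv_mem _ (Subgroup.subset_normalClosure hφ)⟩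
    obtain ⟨g', rfl, hg'⟩ := hgN
    exact ⟨⟨f, HK_sub_HamBar hf⟩ * g' * ⟨f, HK_sub_HamBar hf⟩⁻¹,
      (Subgroup.normalClosure_normal (s := X)).conj_mem g' hg' _, rfl⟩
  apply Subset.antisymm
  · -- the union is a normal subgroup
    let M : Subgroup (HamBar n) :=
      { carrier := {φ | ∃ m, (φ : Hm n) ∈ Pw (Yc (sy (und X)) m) m}
        one_mem' := ⟨0, rfl⟩
        mul_mem' := by
          rintro a b ⟨i, hi⟩ ⟨j, hj⟩
          exact ⟨i + j, Pw_mul (Pw_mono (h1 _) (hmono (Nat.le_add_right i j)) le_rfl hi)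
            (Pw_mono (h1 _) (hmono (Nat.le_add_left j i)) le_rfl hj)⟩
        inv_mem' := by
          rintro a ⟨i, hi⟩
          exact ⟨i, Pw_inv (hinv i) hi⟩ }
    have hM : M.Normal := by
      refine ⟨fun a ha g => ?_⟩
      obtain ⟨i, hi⟩ := ha
      obtain ⟨j, hj⟩ := mem_HamBar.1 g.2
      have h2 := Pw_mono (h1 (i + j)) (hmono (Nat.le_add_right i j)) (Nat.le_add_right i j) hi
      exact ⟨i + j, Pw_map (Yc_conj (HK_mono (Kb_mono (Nat.le_add_left j i)) hj)) h2⟩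
    have hXM : X ⊆ M := by
      intro φ hφ
      have h3 : (φ : Hm n) ∈ Yc (sy (und X)) 1 :=
        ⟨1, HK_one _, φ, Or.inr (Or.inl ⟨φ, hφ, rfl⟩), by group⟩
      exact ⟨1, Pw_one h3⟩
    have h4 : Subgroup.normalClosure X ≤ M := Subgroup.normalClosure_le_normal hXM
    rintro _ ⟨φ, hφ, rfl⟩
    obtain ⟨m, hm⟩ := h4 hφ
    exact mem_iUnion.2 ⟨m, hm⟩
  · exact iUnion_subset fun m => Pw_sub (hsub m) m

/-- **Dichotomy** for the normal closures of analytic sets -/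
theorem dichotomy {X : Set (HamBar n)} (hX : IsAnalyticIn X) :
    Subgroup.normalClosure X = ⊤ ∨ 𝔠 ≤ #(HamBar n ⧸ Subgroup.normalClosure X) := by
  by_cases htop : Subgroup.normalClosure X = ⊤
  · exact Or.inl htop
  right
  set N' : Subgroup (Hm n) := (Subgroup.normalClosure X).map (HamBar n).subtype with hN'
  have hAn : An (N' : Set (Hm n)) := by
    rw [hN', nc_eq X]
    exact An_iUnion fun m => Pw_An (An_Yc (An_sy (An_und hX)) m) m
  have hnorm : ∀ a ∈ HamBar n, ∀ f ∈ N', a * f * a⁻¹ ∈ N' := by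
    rintro a ha _ ⟨φ, hφ, rfl⟩
    exact ⟨⟨a, ha⟩ * φ * ⟨a, ha⟩⁻¹, (Subgroup.normalClosure_normal (s := X)).conj_mem φ hφ _, rfl⟩
  have hex : ∃ m, ∀ δ : ℝ, 0 < δ → ∃ φ ∈ HK n (Kb n m), φ ∉ N' ∧ ∀ p, dist (φ p) p < δ := by
    by_contra hcon
    push Not at hcon
    apply htop
    rw [eq_top_iff]
    intro φ _
    have h1 := all_of_small N' hnorm (fun m => by
      obtain ⟨δ, hδ, hδ2⟩ := hcon m
      refine ⟨δ, hδ, fun φ hφ hp => ?_⟩
      by_contra hφN
      obtain ⟨p, hp'⟩ := hδ2 φ hφ hφN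
      exact absurd (hp p) (not_lt.2 hp')) φ.2
    obtain ⟨ψ, hψ, hψφ⟩ := h1
    have : ψ = φ := Subtype.ext hψφ
    rwa [← this]
  obtain ⟨m, hm⟩ := hex
  obtain ⟨c, hc1, hc2⟩ := perfect_of (Kb_compact m) N' hAn
    (fun a ha => hnorm a (HK_sub_HamBar ha)) hm
  let c' : (ℕ → Bool) → HamBar n ⧸ Subgroup.normalClosure X := fun b =>
    QuotientGroup.mk ⟨c b, HK_sub_HamBar (hc1 b)⟩
  have hinj : Injective c' := by
    intro b b' hbb
    by_contra hne
    refine hc2 b b' hne ?_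
    have h1 := QuotientGroup.eq.1 hbb
    exact ⟨_, h1, rfl⟩
  have h2 := Cardinal.mk_le_of_injective hinj
  have h3 : #(ℕ → Bool) = 𝔠 := by simp
  rwa [h3] at h2

/-- the set of commutators is analytic -/
theorem analyticIn_comm : IsAnalyticIn {k : HamBar n | ∃ f g : HamBar n, k = ⁅f, g⁆} := by
  apply analyticIn_of
  have h : und {k : HamBar n | ∃ f g : HamBar n, k = ⁅f, g⁆} =
      ⋃ m, {k | ∃ f ∈ HK n (Kb n m), ∃ g ∈ HK n (Kb n m), k = ⁅f, g⁆} := by
    ext k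
    constructor
    · rintro ⟨_, ⟨f, g, rfl⟩, rfl⟩
      obtain ⟨i, hi⟩ := mem_HamBar.1 f.2
      obtain ⟨j, hj⟩ := mem_HamBar.1 g.2
      exact mem_iUnion.2 ⟨i + j, f, HK_mono (Kb_mono (Nat.le_add_right i j)) hi, g,
        HK_mono (Kb_mono (Nat.le_add_left j i)) hj, rfl⟩
    · intro hk
      obtain ⟨m, f, hf, g, hg, rfl⟩ := mem_iUnion.1 hk
      exact ⟨⁅⟨f, HK_sub_HamBar hf⟩, ⟨g, HK_sub_HamBar hg⟩⁆, ⟨_, _, rfl⟩, rfl⟩
  exact (congrArg An h).mpr
    (An_iUnion fun m => An_comm (An_HK (Kb_compact m)) (An_HK (Kb_compact m)))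

theorem dichotomy_comm : commutator (HamBar n) = ⊤ ∨ 𝔠 ≤ #(Abelianization (HamBar n)) := by
  have h : commutator (HamBar n) =
      Subgroup.normalClosure {k : HamBar n | ∃ f g : HamBar n, k = ⁅f, g⁆} := by
    rw [commutator_def, Subgroup.commutator_def']
    congr 1
    ext k
    constructor
    · rintro ⟨f, -, g, -, rfl⟩
      exact ⟨f, g, rfl⟩
    · rintro ⟨f, g, rfl⟩
      exact ⟨f, Subgroup.mem_top _, g, Subgroup.mem_top _, rfl⟩
  rcases dichotomy (n := n) analyticIn_comm with h1 | h1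
  · exact Or.inl (h.trans h1)
  · right
    unfold Abelianization
    rw [h]
    exact h1

/-- the dichotomy for the smallest nontrivial normal subgroup -/
theorem dichotomy_simple (hn : 0 < n) : IsSimpleGroup (HamBar n) ∨
    ∃ S : Subgroup (HamBar n), S.Normal ∧ IsSimpleGroup S ∧
      (∀ N : Subgroup (HamBar n), N.Normal → N ≠ ⊥ → S ≤ N) ∧ 𝔠 ≤ #(HamBar n ⧸ S) := by
  obtain ⟨S, s1, s2, s3, -⟩ := main_of' hSm hCo hn (HamBar n) (fun u hu => ham_HamBar hu) le_rfl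
  have hSne : S ≠ ⊥ := by
    rintro rfl
    have := s2.toNontrivial
    exact not_subsingleton _ (inferInstance : Subsingleton (⊥ : Subgroup (HamBar n)))
  obtain ⟨g, hg⟩ := (Subgroup.ne_bot_iff_exists_ne_one).1 hSne
  have hS : S = Subgroup.normalClosure {(g : HamBar n)} := by
    refine le_antisymm (s3 _ Subgroup.normalClosure_normal fun h => hg ?_)
      (Subgroup.normalClosure_le_normal (by
        rintro _ rfl
        exact g.2))
    have h1 : (g : HamBar n) ∈ Subgroup.normalClosure {(g : HamBar n)} :=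
      Subgroup.subset_normalClosure rfl
    rw [h, Subgroup.mem_bot] at h1
    exact Subtype.ext h1
  rcases dichotomy (analyticIn_countable (countable_singleton (g : HamBar n))) with h1 | h1
  · left
    have hSt : S = ⊤ := hS.trans h1
    have hnt : Nontrivial (HamBar n) := ⟨⟨g, 1, fun h => hg (Subtype.ext h)⟩⟩
    refine ⟨fun N hN => ?_⟩
    by_cases hb : N = ⊥
    · exact Or.inl hb
    · right
      rw [eq_top_iff, ← hSt]
      exact s3 N hN hb
  · right
    refine ⟨S, s1, s2, s3, ?_⟩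
    rw [hS]
    exact h1

end Run7.h575.HD
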