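import Pool.Agent.Run7.h575.HD.C6

/-!
# Products of many commutators with small supports are products of two commutators

The trick is that of Burago, Ivanov and Polterovich.
-/

set_option autoImplicit false

open Set MeasureTheory Filter Topology Function
open Pool.Agent.Y453.HB
open Pool.Agent.Y309.HB
open Pool.Agent.N235.DH
open Pool.Agent.R773.HN
open scoped commutatorElement

namespace Run7.h575.HD

variable {n : ℕ}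

theorem Pw_left {G : Type*} [Group G] {Y : Set G} {m : ℕ} {k : G} (h : k ∈ Pw Y (m + 1)) :
    ∃ g ∈ Y, ∃ f ∈ Pw Y m, k = g * f := by
  induction m generalizing k with
  | zero =>
    obtain ⟨f, hf, g, hg, rfl⟩ := h
    have hf' : f = 1 := hf
    exact ⟨g, hg, 1, rfl, by rw [hf', one_mul, mul_one]⟩
  | succ m ih =>
    obtain ⟨f, hf, g, hg, rfl⟩ := h
    obtain ⟨g', hg', f', hf', rfl⟩ := ih hf
    exact ⟨g', hg', f' * g, ⟨f', hf', g, hg, rfl⟩, by rw [mul_assoc]⟩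

/-- commutators of elements of `Γ` supported in `A` -/
def CmS (Γ : Subgroup (Hm n)) (A : Set (E n)) : Set (Hm n) :=
  {k | ∃ f ∈ Γ, ∃ g ∈ Γ, Supp A f ∧ Supp A g ∧ k = ⁅f, g⁆}

/-- the union of the first `m` translates -/
def Us (ψ : Hm n) (A : Set (E n)) : ℕ → Set (E n)
  | 0 => ∅
  | m + 1 => A ∪ ψ '' Us ψ A m

theorem Pw_supp {Γ : Subgroup (Hm n)} {A : Set (E n)} {m : ℕ} {z : Hm n}
    (h : z ∈ Pw (CmS Γ A) m) : z ∈ Γ ∧ Supp A z := by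
  induction m generalizing z with
  | zero =>
    have h' : z = 1 := h
    subst h'
    exact ⟨Γ.one_mem, Supp.one A⟩
  | succ m ih =>
    obtain ⟨f, hf, _, ⟨a, ha, b, hb, has, hbs, rfl⟩, rfl⟩ := h
    obtain ⟨h1, h2⟩ := ih hf
    exact ⟨Γ.mul_mem h1 (Γ.mul_mem (Γ.mul_mem (Γ.mul_mem ha hb) (Γ.inv_mem ha)) (Γ.inv_mem hb)),
      h2.mul (has.comm hbs)⟩

theorem bip_alg {G : Type*} [Group G] {x0 z ψ f0 g0 F F' Y : G}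
    (hx : x0 = ⁅f0, g0⁆) (hz : z = ⁅F, F'⁆ * ⁅Y, ψ⁆)
    (c1 : Commute f0 (ψ * F * ψ⁻¹)) (c2 : Commute f0 (ψ * F' * ψ⁻¹))
    (c3 : Commute g0 (ψ * F * ψ⁻¹)) (c4 : Commute g0 (ψ * F' * ψ⁻¹))
    (c5 : Commute z (ψ * z * ψ⁻¹)) (c6 : Commute z (ψ * Y * ψ⁻¹))
    (c7 : Commute z (ψ * (ψ * Y * ψ⁻¹) * ψ⁻¹)) :
    x0 * z = ⁅f0 * (ψ * F * ψ⁻¹), g0 * (ψ * F' * ψ⁻¹)⁆ * ⁅z * (ψ * Y * ψ⁻¹), ψ⁆ := by
  have e1 : ⁅f0 * (ψ * F * ψ⁻¹), g0 * (ψ * F' * ψ⁻¹)⁆ = x0 * (ψ * ⁅F, F'⁆ * ψ⁻¹) := by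
    set F1 := ψ * F * ψ⁻¹ with hF1
    set F2 := ψ * F' * ψ⁻¹ with hF2
    have e2 : ψ * ⁅F, F'⁆ * ψ⁻¹ = ⁅F1, F2⁆ := by
      rw [hF1, hF2]
      simp only [commutatorElement_def]
      group
    rw [e2, hx]
    simp only [commutatorElement_def, mul_inv_rev]
    have d1 := c1.inv_right.eq
    have d2 := c2.inv_right.eq
    have d3 := c3.eq
    have d4 := c3.inv_right.eq
    have d5 := c4.inv_right.eq
    have d6 := c1.inv_left.inv_right.eq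
    calc f0 * F1 * (g0 * F2) * (F1⁻¹ * f0⁻¹) * (F2⁻¹ * g0⁻¹)
        = f0 * (F1 * g0) * F2 * (F1⁻¹ * f0⁻¹) * (F2⁻¹ * g0⁻¹) := by group
      _ = f0 * (g0 * F1) * F2 * (f0⁻¹ * F1⁻¹) * (g0⁻¹ * F2⁻¹) := by
          rw [d3, c1.inv_left.inv_right.eq, c4.inv_left.inv_right.eq]
      _ = f0 * g0 * F1 * (F2 * f0⁻¹) * (F1⁻¹ * g0⁻¹) * F2⁻¹ := by group
      _ = f0 * g0 * F1 * (f0⁻¹ * F2) * (g0⁻¹ * F1⁻¹) * F2⁻¹ := by
          rw [c2.inv_left.eq, c3.inv_left.inv_right.eq]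
      _ = f0 * g0 * (F1 * f0⁻¹) * (F2 * g0⁻¹) * F1⁻¹ * F2⁻¹ := by group
      _ = f0 * g0 * (f0⁻¹ * F1) * (g0⁻¹ * F2) * F1⁻¹ * F2⁻¹ := by
          rw [c1.inv_left.eq, c4.inv_left.eq]
      _ = f0 * g0 * f0⁻¹ * (F1 * g0⁻¹) * F2 * F1⁻¹ * F2⁻¹ := by group
      _ = f0 * g0 * f0⁻¹ * (g0⁻¹ * F1) * F2 * F1⁻¹ * F2⁻¹ := by rw [c3.inv_left.eq]
      _ = f0 * g0 * f0⁻¹ * g0⁻¹ * (F1 * F2 * F1⁻¹ * F2⁻¹) := by group
  have e3 : ⁅F, F'⁆ = z * (ψ * Y * ψ⁻¹) * Y⁻¹ := by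
    rw [hz]
    simp only [commutatorElement_def]
    group
  rw [e1, e3]
  set Y1 := ψ * Y * ψ⁻¹ with hY1
  set Y2 := ψ * Y1 * ψ⁻¹ with hY2
  set z1 := ψ * z * ψ⁻¹ with hz1
  rw [commutatorElement_def (z * Y1) ψ]
  have e4 : ψ * (z * Y1 * Y⁻¹) * ψ⁻¹ = z1 * Y2 * Y1⁻¹ := by
    rw [hY2, hz1, hY1]
    group
  have e5 : ψ * (z * Y1)⁻¹ * ψ⁻¹ = Y2⁻¹ * z1⁻¹ := by
    rw [hY2, hz1]
    group
  have e6 : x0 * (ψ * (z * Y1 * Y⁻¹) * ψ⁻¹) * (z * Y1 * ψ * (z * Y1)⁻¹ * ψ⁻¹) =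
      x0 * ((z1 * Y2 * Y1⁻¹) * z) * (Y1 * (Y2⁻¹ * z1⁻¹)) := by
    rw [e4, ← e5]
    group
  rw [e6]
  have h1 : Commute z (z1 * Y2 * Y1⁻¹) := (c5.mul_right c7).mul_right c6.inv_right
  rw [← h1.eq]
  group

/-- **BIP.** A product of `m` commutators of elements supported in a set which is moved off itself
by `ψ, …, ψ ^ m` is a product of two commutators. -/
theorem bip {Γ : Subgroup (Hm n)} {A : Set (E n)} {ψ : Hm n} (hψ : ψ ∈ Γ) (m : ℕ)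
    (hd : ∀ k ≤ m, Disjoint A (ψ '' Us ψ A k)) (hd2 : ∀ k ≤ m, Disjoint A (ψ '' (ψ '' Us ψ A k)))
    {z : Hm n} (hz : z ∈ Pw (CmS Γ A) m) :
    ∃ F ∈ Γ, ∃ F' ∈ Γ, ∃ Y ∈ Γ, Supp (Us ψ A m) F ∧ Supp (Us ψ A m) F' ∧ Supp (Us ψ A m) Y ∧
      z = ⁅F, F'⁆ * ⁅Y, ψ⁆ := by
  induction m generalizing z with
  | zero =>
    have h' : z = 1 := hz
    subst h'
    exact ⟨1, Γ.one_mem, 1, Γ.one_mem, 1, Γ.one_mem, Supp.one _, Supp.one _, Supp.one _, by simp⟩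
  | succ m ih =>
    obtain ⟨x0, ⟨f0, hf0, g0, hg0, hf0s, hg0s, hx0⟩, z', hz', rfl⟩ := Pw_left hz
    obtain ⟨F, hF, F', hF', Y, hY, hFs, hFs', hYs, hzz⟩ := ih
      (fun k hk => hd k (by omega)) (fun k hk => hd2 k (by omega)) hz'
    obtain ⟨hz1, hz2⟩ := Pw_supp hz'
    have hcj : ∀ {f : Hm n}, f ∈ Γ → ψ * f * ψ⁻¹ ∈ Γ := fun {f} hf =>
      Γ.mul_mem (Γ.mul_mem hψ hf) (Γ.inv_mem hψ)
    have hdm := hd m (by omega)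
    have hdm2 := hd2 m (by omega)
    have hAsub : A ⊆ Us ψ A (m + 1) := subset_union_left
    have hUsub : ψ '' Us ψ A m ⊆ Us ψ A (m + 1) := subset_union_right
    have hdA : Disjoint A (ψ '' A) := by
      have h1 := hd 1 (by omega)
      refine h1.mono_right (image_mono ?_)
      exact subset_union_left
    refine ⟨f0 * (ψ * F * ψ⁻¹), Γ.mul_mem hf0 (hcj hF), g0 * (ψ * F' * ψ⁻¹),
      Γ.mul_mem hg0 (hcj hF'), z' * (ψ * Y * ψ⁻¹), Γ.mul_mem hz1 (hcj hY),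
      (hf0s.mono hAsub).mul ((hFs.conj ψ).mono hUsub),
      (hg0s.mono hAsub).mul ((hFs'.conj ψ).mono hUsub),
      (hz2.mono hAsub).mul ((hYs.conj ψ).mono hUsub), ?_⟩
    refine bip_alg hx0 hzz ?_ ?_ ?_ ?_ ?_ ?_ ?_
    · exact Supp.commute hdm hf0s (hFs.conj ψ)
    · exact Supp.commute hdm hf0s (hFs'.conj ψ)
    · exact Supp.commute hdm hg0s (hFs.conj ψ)
    · exact Supp.commute hdm hg0s (hFs'.conj ψ)
    · exact Supp.commute hdA hz2 (hz2.conj ψ)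
    · exact Supp.commute hdm hz2 (hYs.conj ψ)
    · exact Supp.commute hdm2 hz2 ((hYs.conj ψ).conj ψ)

end Run7.h575.HD
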