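import Pool.Agent.Run7.h575.HD.C7

/-!
# Dilations, translations, and the core of the theorem on two commutators
-/

set_option autoImplicit false

open Set MeasureTheory Filter Topology Function
open Pool.Agent.Y453.HB
open Pool.Agent.Y309.HB
open Pool.Agent.N235.DH
open Pool.Agent.R773.HN
open scoped commutatorElement

namespace Run7.h575.HD

variable {n : ℕ}

/-! ### Chains of translates of a small ball -/

theorem Us_sub {ψ : Hm n} {v : E n} {s : ℝ} (hs : 0 < s) (hv : nm v = 3 * s)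
    (hψ : ∀ x ∈ D (0 : E n) (1 / 50), ψ x = x + v) (k : ℕ) (hk : (3 * (k : ℝ) + 1) * s ≤ 1 / 50) :
    ∀ x ∈ Us ψ (D (0 : E n) s) k, ∃ j : ℕ, j < k ∧ nm (x - (j : ℝ) • v) ≤ s := by
  induction k with
  | zero => exact fun x hx => hx.elim
  | succ k ih =>
    intro x hx
    rcases hx with hx | ⟨y, hy, rfl⟩
    · refine ⟨0, by omega, ?_⟩
      rw [Nat.cast_zero, zero_smul]
      exact hx
    · push_cast at hk
      obtain ⟨j, hj, hj2⟩ := ih (by nlinarith) y hy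
      have hy2 : y ∈ D (0 : E n) (1 / 50) := by
        change nm (y - 0) ≤ 1 / 50
        have e : y - 0 = (y - (j : ℝ) • v) + (j : ℝ) • v := by abel
        rw [e]
        refine (nm_add _ _).trans ?_
        rw [nm_smul, hv, abs_of_nonneg (Nat.cast_nonneg j)]
        have h1 : (j : ℝ) ≤ k := by exact_mod_cast hj.le
        nlinarith
      refine ⟨j + 1, by omega, ?_⟩
      rw [hψ y hy2]
      have e : y + v - ((j + 1 : ℕ) : ℝ) • v = y - (j : ℝ) • v := by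
        push_cast
        rw [add_smul, one_smul]
        abel
      rwa [e]

theorem Us_sub2 {ψ : Hm n} {v : E n} {s : ℝ} (hs : 0 < s) (hv : nm v = 3 * s)
    (hψ : ∀ x ∈ D (0 : E n) (1 / 50), ψ x = x + v) (k : ℕ) (hk : (3 * (k : ℝ) + 1) * s ≤ 1 / 50) :
    Us ψ (D (0 : E n) s) k ⊆ D (0 : E n) (1 / 50) := by
  intro x hx
  obtain ⟨j, hj, hj2⟩ := Us_sub hs hv hψ k hk x hx
  change nm (x - 0) ≤ 1 / 50
  have e : x - 0 = (x - (j : ℝ) • v) + (j : ℝ) • v := by abel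
  rw [e]
  refine (nm_add _ _).trans ?_
  rw [nm_smul, hv, abs_of_nonneg (Nat.cast_nonneg j)]
  have h1 : (j : ℝ) ≤ k := by exact_mod_cast hj.le
  nlinarith

theorem off_A {v : E n} {s : ℝ} (hs : 0 < s) (hv : nm v = 3 * s) {x : E n} {j : ℕ} (hj : 1 ≤ j)
    (h : nm (x - (j : ℝ) • v) ≤ s) : x ∉ D (0 : E n) s := by
  intro hx
  have h1 : nm (x - 0) ≤ s := hx
  rw [sub_zero] at h1
  have h2 : nm ((j : ℝ) • v) ≤ 2 * s := by
    have e : (j : ℝ) • v = x + -(x - (j : ℝ) • v) := by abel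
    rw [e]
    refine (nm_add _ _).trans ?_
    rw [nm_neg]
    linarith
  rw [nm_smul, hv, abs_of_nonneg (Nat.cast_nonneg j)] at h2
  have h3 : (1 : ℝ) ≤ j := by exact_mod_cast hj
  nlinarith

theorem Us_disj {ψ : Hm n} {v : E n} {s : ℝ} (hs : 0 < s) (hv : nm v = 3 * s)
    (hψ : ∀ x ∈ D (0 : E n) (1 / 50), ψ x = x + v) (k : ℕ)
    (hk : (3 * (k : ℝ) + 4) * s ≤ 1 / 50) :
    Disjoint (D (0 : E n) s) (ψ '' Us ψ (D (0 : E n) s) k) ∧
      Disjoint (D (0 : E n) s) (ψ '' (ψ '' Us ψ (D (0 : E n) s) k)) := by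
  have hpt : ∀ y ∈ Us ψ (D (0 : E n) s) k, ∃ j : ℕ, j < k ∧ nm (ψ y - ((j + 1 : ℕ) : ℝ) • v) ≤ s ∧
      nm (ψ (ψ y) - ((j + 2 : ℕ) : ℝ) • v) ≤ s := by
    intro y hy
    obtain ⟨j, hj, hj2⟩ := Us_sub hs hv hψ k (by nlinarith) y hy
    have hj1 : (j : ℝ) ≤ k := by exact_mod_cast hj.le
    have hy1 : nm y ≤ (3 * (k : ℝ) + 1) * s := by
      have e : y = (y - (j : ℝ) • v) + (j : ℝ) • v := by abel
      rw [e]
      refine (nm_add _ _).trans ?_
      rw [nm_smul, hv, abs_of_nonneg (Nat.cast_nonneg j)]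
      nlinarith
    have hy2 : y ∈ D (0 : E n) (1 / 50) := by
      change nm (y - 0) ≤ 1 / 50
      rw [sub_zero]
      nlinarith
    have hy3 : y + v ∈ D (0 : E n) (1 / 50) := by
      change nm (y + v - 0) ≤ 1 / 50
      rw [sub_zero]
      refine (nm_add _ _).trans ?_
      rw [hv]
      nlinarith
    refine ⟨j, hj, ?_, ?_⟩
    · rw [hψ y hy2]
      have e : y + v - ((j + 1 : ℕ) : ℝ) • v = y - (j : ℝ) • v := by
        push_cast
        rw [add_smul, one_smul]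
        abel
      rwa [e]
    · rw [hψ y hy2, hψ _ hy3]
      have e : y + v + v - ((j + 2 : ℕ) : ℝ) • v = y - (j : ℝ) • v := by
        push_cast
        rw [add_smul, two_smul]
        abel
      rwa [e]
  constructor
  · rw [Set.disjoint_left]
    rintro _ hx ⟨y, hy, rfl⟩
    obtain ⟨j, -, h1, -⟩ := hpt y hy
    exact off_A hs hv (by omega) h1 hx
  · rw [Set.disjoint_left]
    rintro _ hx ⟨_, ⟨y, hy, rfl⟩, rfl⟩
    obtain ⟨j, -, -, h1⟩ := hpt y hy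
    exact off_A hs hv (by omega) h1 hx

/-! ### Translations which are commutators -/

/-- a commutator of Hamiltonian diffeomorphisms acts as a given translation on a small ball -/
theorem exists_tr (hn : 0 < n) : ∃ b : Hm n, IsHam b ∧ ∀ u : E n, nm u < 2 / 25 →
    ∃ a : Hm n, IsHam a ∧ ∀ x ∈ D (0 : E n) (1 / 50), (⁅a, b⁆ : Hm n) x = x + u := by
  obtain ⟨w, hw⟩ := exists_vec hn (show (0 : ℝ) < 1 / 2 by norm_num)
  obtain ⟨b, hb1, -, hb2⟩ := hT n 0 0 w (1 / 10) (7 / 10) (by norm_num)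
    (by rw [nm_zero]; norm_num) (by rw [sub_zero, nm_zero]; norm_num)
    (by rw [zero_add, sub_zero, hw]; norm_num)
  refine ⟨b, hb1, fun u hu => ?_⟩
  obtain ⟨a, ha1, ha2, ha3⟩ := hT n 0 0 u (1 / 50) (1 / 10) (by norm_num)
    (by rw [nm_zero]; norm_num) (by rw [sub_zero, nm_zero]; norm_num)
    (by rw [zero_add, sub_zero]; linarith)
  refine ⟨a, ha1, fun x hx => ?_⟩
  have hx1 : nm x ≤ 1 / 50 := by
    have h : nm (x - 0) ≤ 1 / 50 := hx
    rwa [sub_zero] at h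
  have h1 : b⁻¹ x ∉ D (0 : E n) (1 / 10) := by
    intro h2
    have h3 := hb2 _ h2
    rw [apply_inv_self] at h3
    have h4 : nm (b⁻¹ x) ≤ 1 / 10 := by
      have h : nm (b⁻¹ x - 0) ≤ 1 / 10 := h2
      rwa [sub_zero] at h
    have h5 : nm w ≤ nm x + nm (b⁻¹ x) := by
      have e : w = x + -(b⁻¹ x) := by
        rw [eq_comm, ← sub_eq_add_neg, sub_eq_iff_eq_add']
        exact h3
      calc nm w = nm (x + -(b⁻¹ x)) := by rw [← e]
        _ ≤ nm x + nm (-(b⁻¹ x)) := nm_add _ _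
        _ = nm x + nm (b⁻¹ x) := by rw [nm_neg]
    rw [hw] at h5
    linarith
  change a (b (a⁻¹ (b⁻¹ x))) = x + u
  rw [ha2.inv _ h1, apply_inv_self, ha3 x hx]

/-! ### Dilations -/

/-- conjugation by the dilation -/
noncomputable def dl (s : ℝ) (hs : 0 < s) (φ : Hm n) : Hm n := dil s hs * φ * (dil s hs)⁻¹

theorem dl_apply (s : ℝ) (hs : 0 < s) (φ : Hm n) (x : E n) : dl s hs φ x = s • φ (s⁻¹ • x) := rfl

theorem dl_dl {s t : ℝ} (hs : 0 < s) (ht : 0 < t) (φ : Hm n) :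
    dl s hs (dl t ht φ) = dl (s * t) (mul_pos hs ht) φ := by
  refine Homeomorph.ext fun x => ?_
  rw [dl_apply, dl_apply, dl_apply, smul_smul, smul_smul, mul_inv_rev]

theorem D_dil {s ρ : ℝ} (hs : 0 < s) {x : E n} (hx : x ∉ D (0 : E n) (s * ρ)) :
    s⁻¹ • x ∉ D (0 : E n) ρ := by
  intro h
  apply hx
  have h1 : nm (s⁻¹ • x - 0) ≤ ρ := h
  rw [sub_zero, nm_smul, abs_of_pos (inv_pos.2 hs)] at h1
  change nm (x - 0) ≤ s * ρ
  rw [sub_zero]
  have h2 := mul_le_mul_of_nonneg_left h1 hs.le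
  rwa [← mul_assoc, mul_inv_cancel₀ hs.ne', one_mul] at h2

theorem dl_supp {s ρ : ℝ} (hs : 0 < s) {φ : Hm n} (h : ∀ x, x ∉ D (0 : E n) ρ → φ x = x) :
    ∀ x, x ∉ D (0 : E n) (s * ρ) → dl s hs φ x = x := by
  intro x hx
  rw [dl_apply, h _ (D_dil hs hx), smul_smul, mul_inv_cancel₀ hs.ne', one_smul]

theorem dl_HK {s ρ : ℝ} (hs : 0 < s) (hs1 : s ≤ 1) {φ : Hm n}
    (h : φ ∈ HK n (D (0 : E n) ρ)) : dl s hs φ ∈ HK n (D (0 : E n) (s * ρ)) := by
  obtain ⟨h1, u, h2, h3, h4⟩ := h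
  refine ⟨dl_supp hs h1, fun k => dl s hs (u k), fun k => dl_supp hs (h2 k),
    fun k => Pool.Agent.Y419.HB.dil_ham n s hs hs1 _ (h3 k), ?_⟩
  rw [Metric.tendstoUniformly_iff] at h4 ⊢
  intro ε hε
  filter_upwards [h4 ε hε] with k hk x
  rw [dl_apply, dl_apply, dist_smul₀, Real.norm_eq_abs, abs_of_pos hs]
  refine (mul_le_of_le_one_left dist_nonneg hs1).trans_lt (hk _)

theorem dl_HamBar {s : ℝ} (hs : 0 < s) (hs1 : s ≤ 1) {φ : Hm n} (h : φ ∈ HamBar n) :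
    dl s hs φ ∈ HamBar n := by
  obtain ⟨m, hm⟩ := mem_HamBar.1 h
  refine mem_HamBar.2 ⟨m, HK_mono (D_mono ?_) (dl_HK hs hs1 hm)⟩
  have h1 : (0 : ℝ) < 1 / ((m : ℝ) + 2) := by positivity
  have h2 : 1 / ((m : ℝ) + 2) ≤ 1 / 2 :=
    one_div_le_one_div_of_le (by norm_num) (by
      have : (0 : ℝ) ≤ m := Nat.cast_nonneg m
      linarith)
  nlinarith

theorem dl_small {s : ℝ} (hs : 0 < s) {φ : Hm n} (h : φ ∈ HamBar n) :
    Supp (D (0 : E n) s) (dl s hs φ) := by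
  obtain ⟨m, hm⟩ := mem_HamBar.1 h
  intro x hx
  refine dl_supp (ρ := 1) hs (fun y hy => hm.1 y fun hy' => hy ?_) x (by rwa [mul_one])
  refine D_mono ?_ hy'
  have h1 : (0 : ℝ) < 1 / ((m : ℝ) + 2) := by positivity
  linarith

theorem dl_half {s : ℝ} (hs : 0 < s) (hs1 : s ≤ 1 / 2) {φ : Hm n} (h : φ ∈ HamBar n) :
    dl s hs φ ∈ HK n (Kb n 0) := by
  obtain ⟨m, hm⟩ := mem_HamBar.1 h
  refine HK_mono (D_mono ?_) (dl_HK hs (by linarith) hm)
  have h1 : (0 : ℝ) < 1 / ((m : ℝ) + 2) := by positivity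
  have h2 : s * (1 - 1 / ((m : ℝ) + 2)) ≤ s * 1 := mul_le_mul_of_nonneg_left (by linarith) hs.le
  refine h2.trans ?_
  norm_num
  linarith

theorem dist_le_of_supp {s : ℝ} (hs : 0 < s) {φ : Hm n} (h : Supp (D (0 : E n) s) φ) (p : E n) :
    dist (φ p) p ≤ 2 * s := by
  by_cases hp : p ∈ D (0 : E n) s
  · have h6 : φ p ∈ D (0 : E n) s := Supp.maps h hp
    rw [dist_eq_norm]
    have e : φ p - p = (φ p - 0) + -(p - 0) := by simp [sub_eq_add_neg]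
    rw [e]
    refine (norm_le_nm _).trans ((nm_add _ _).trans ?_)
    rw [nm_neg]
    have h7 : nm (φ p - 0) ≤ s := h6
    have h8 : nm (p - 0) ≤ s := hp
    linarith
  · rw [h p hp, dist_self]
    linarith

/-! ### The core -/

/-- commutators of uniform limits supported in the `m`-th ball -/
def Yk (n m : ℕ) : Set (Hm n) :=
  {k | ∃ f ∈ HK n (Kb n m), ∃ g ∈ HK n (Kb n m), k = ⁅f, g⁆}

theorem Yk_mono : Monotone (Yk n) := by
  rintro m m' hm _ ⟨f, hf, g, hg, rfl⟩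
  exact ⟨f, HK_mono (Kb_mono hm) hf, g, HK_mono (Kb_mono hm) hg, rfl⟩

theorem Yk_one (m : ℕ) : (1 : Hm n) ∈ Yk n m :=
  ⟨1, HK_one _, 1, HK_one _, (commutatorElement_one_left 1).symm⟩

theorem Yk_inv (m : ℕ) : ∀ f ∈ Yk n m, f⁻¹ ∈ Yk n m := by
  rintro _ ⟨f, hf, g, hg, rfl⟩
  exact ⟨g, hg, f, hf, commutatorElement_inv f g⟩

theorem conj_comm' {G : Type*} [Group G] (a f g : G) :
    a * ⁅f, g⁆ * a⁻¹ = ⁅a * f * a⁻¹, a * g * a⁻¹⁆ := by
  simp only [commutatorElement_def]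
  group

theorem Yk_conj {m : ℕ} {a : Hm n} (ha : a ∈ HK n (Kb n m)) : ∀ f ∈ Yk n m, a * f * a⁻¹ ∈ Yk n m := by
  rintro _ ⟨f, hf, g, hg, rfl⟩
  have hc := Kb_compact (n := n) m
  exact ⟨a * f * a⁻¹, HK_mul hc (HK_mul hc ha hf) (HK_inv hc ha), a * g * a⁻¹,
    HK_mul hc (HK_mul hc ha hg) (HK_inv hc ha), conj_comm' a f g⟩

theorem comm_Pw {φ : HamBar n} (h : φ ∈ commutator (HamBar n)) :
    ∃ m, (φ : Hm n) ∈ Pw (Yk n m) m := by
  rw [commutator_def, Subgroup.commutator_def] at h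
  induction h using Subgroup.closure_induction with
  | mem x hx =>
    obtain ⟨f, -, g, -, rfl⟩ := hx
    obtain ⟨i, hi⟩ := mem_HamBar.1 f.2
    obtain ⟨j, hj⟩ := mem_HamBar.1 g.2
    refine ⟨i + j + 1, Pw_mono (m := 1) (Yk_one _) (Yk_mono (Nat.le_succ (i + j))) (by omega)
      (Pw_one ⟨f, HK_mono (Kb_mono (Nat.le_add_right i j)) hi, g,
        HK_mono (Kb_mono (Nat.le_add_left j i)) hj, rfl⟩)⟩
  | one => exact ⟨0, rfl⟩
  | mul x y _ _ hx hy =>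
    obtain ⟨a, ha⟩ := hx
    obtain ⟨b, hb⟩ := hy
    exact ⟨a + b, Pw_mul (Pw_mono (Yk_one _) (Yk_mono (Nat.le_add_right a b)) le_rfl ha)
      (Pw_mono (Yk_one _) (Yk_mono (Nat.le_add_left b a)) le_rfl hb)⟩
  | inv x _ hx =>
    obtain ⟨a, ha⟩ := hx
    exact ⟨a, Pw_inv (Yk_inv a) ha⟩

/-- **Uniform bound** for the number of commutators -/
theorem unif {r : ℝ} (hr : 0 < r) (hr1 : r ≤ 1)
    (h : ∀ φ ∈ HamBar n, ∃ m, dl r hr φ ∈ Pw (Yk n m) m) :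
    ∃ (m : ℕ) (s : ℝ) (hs : 0 < s), s ≤ 1 ∧ ∀ φ ∈ HamBar n, dl s hs φ ∈ Pw (Yk n m) m := by
  have hK := Kb_compact (n := n) 0
  have hstep : ∀ {m m' : ℕ}, m ≤ m' → Pw (Yk n m) m ⊆ Pw (Yk n m') m' := fun {m m'} h =>
    Pw_mono (Yk_one m') (Yk_mono h) h
  obtain ⟨m, δ, hδ, hm⟩ := bdd hK (fun m => {φ | dil r hr * φ * (dil r hr)⁻¹ ∈ Pw (Yk n m) m})
    (fun m m' hmm φ hφ => hstep hmm hφ)
    (fun m => An_fix (Pw_An (An_comm (An_HK (Kb_compact m)) (An_HK (Kb_compact m))) m) _)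
    (fun m f hf => by
      have h1 := Pw_inv (Yk_inv m) hf
      have e : (dil r hr * f * (dil r hr)⁻¹)⁻¹ = dil r hr * f⁻¹ * (dil r hr)⁻¹ := by group
      rw [e] at h1
      exact h1)
    (fun m => ⟨m + m, fun f hf g hg => by
      have h1 := Pw_mul hf hg
      have e : dil r hr * f * (dil r hr)⁻¹ * (dil r hr * g * (dil r hr)⁻¹) =
          dil r hr * (f * g) * (dil r hr)⁻¹ := by group
      rw [e] at h1
      exact Pw_mono (Yk_one _) (Yk_mono (Nat.le_add_right m m)) le_rfl h1⟩)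
    (fun m => ⟨m, fun f hf a ha => by
      have h2 : dl r hr a ∈ HK n (Kb n m) := by
        refine HK_mono ((D_mono ?_).trans (Kb_mono (Nat.zero_le m))) (dl_HK hr hr1 ha)
        norm_num
        linarith
      have h1 := Pw_map (Yk_conj h2) hf
      have e : dl r hr a * (dil r hr * f * (dil r hr)⁻¹) * (dl r hr a)⁻¹ =
          dil r hr * (a * f * a⁻¹) * (dil r hr)⁻¹ := by
        unfold dl
        group
      rw [e] at h1
      exact h1⟩)
    (fun f hf => h f (HK_sub_HamBar hf))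
  set s : ℝ := min (1 / 2) (δ / 4) with hs
  have hs0 : 0 < s := by positivity
  have hs1 : s ≤ 1 / 2 := min_le_left _ _
  have hs2 : s ≤ δ / 4 := min_le_right _ _
  refine ⟨m, r * s, mul_pos hr hs0, by nlinarith, fun φ hφ => ?_⟩
  have h1 := hm _ (dl_half hs0 hs1 hφ) fun p =>
    (dist_le_of_supp hs0 (dl_small hs0 hφ) p).trans_lt (by linarith)
  rw [← dl_dl hr hs0]
  exact h1

/-- **Core.** -/
theorem core2 (hn : 0 < n) {r : ℝ} (hr : 0 < r) (hr1 : r ≤ 1)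
    (h : ∀ φ ∈ HamBar n, ∃ m, dl r hr φ ∈ Pw (Yk n m) m) :
    ∃ (s : ℝ) (hs : 0 < s) (a b c : Hm n), s ≤ 1 ∧ IsHam a ∧ IsHam b ∧ IsHam c ∧
      Disjoint ((⁅c, b⁆ : Hm n) '' D (0 : E n) (1 / 50)) (D (0 : E n) (1 / 50)) ∧
      ∀ φ ∈ HamBar n, ∃ F ∈ HamBar n, ∃ F' ∈ HamBar n, ∃ Y ∈ HamBar n,
        Supp (D (0 : E n) (1 / 50)) F ∧ Supp (D (0 : E n) (1 / 50)) F' ∧
        dl s hs φ = ⁅F, F'⁆ * ⁅Y, ⁅a, b⁆⁆ := by
  obtain ⟨m, s1, hs1, hs1', hm⟩ := unif hr hr1 h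
  obtain ⟨b, hb, hab⟩ := exists_tr hn
  set s : ℝ := 1 / (50 * (3 * (m : ℝ) + 4)) with hs
  have hm0 : (0 : ℝ) ≤ m := Nat.cast_nonneg m
  have hs0 : 0 < s := by positivity
  have hsm : (3 * (m : ℝ) + 4) * s = 1 / 50 := by
    rw [hs]
    field_simp
  have hs2 : s ≤ 1 / 200 := by nlinarith
  obtain ⟨v, hv⟩ := exists_vec hn (show (0 : ℝ) < 3 * s by linarith)
  obtain ⟨a, ha, hav⟩ := hab v (by rw [hv]; linarith)
  obtain ⟨u, hu⟩ := exists_vec hn (show (0 : ℝ) < 1 / 20 by norm_num)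
  obtain ⟨c, hc, hcu⟩ := hab u (by rw [hu]; norm_num)
  have hψ : (⁅a, b⁆ : Hm n) ∈ HamBar n :=
    (HamBar n).mul_mem ((HamBar n).mul_mem ((HamBar n).mul_mem (ham_HamBar ha) (ham_HamBar hb))
      ((HamBar n).inv_mem (ham_HamBar ha))) ((HamBar n).inv_mem (ham_HamBar hb))
  refine ⟨s * s1, mul_pos hs0 hs1, a, b, c, by nlinarith, ha, hb, hc, ?_, ?_⟩
  · rw [Set.disjoint_left]
    rintro _ ⟨x, hx, rfl⟩ hx2
    rw [hcu x hx] at hx2
    have h1 : nm (x + u - 0) ≤ 1 / 50 := hx2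
    have h2 : nm (x - 0) ≤ 1 / 50 := hx
    rw [sub_zero] at h1 h2
    have h3 : nm u ≤ nm (x + u) + nm x := by
      have e : u = (x + u) + -x := by abel
      calc nm u = nm ((x + u) + -x) := by rw [← e]
        _ ≤ nm (x + u) + nm (-x) := nm_add _ _
        _ = nm (x + u) + nm x := by rw [nm_neg]
    rw [hu] at h3
    linarith
  · intro φ hφ
    have h1 : dl (s * s1) (mul_pos hs0 hs1) φ ∈ Pw (CmS (HamBar n) (D (0 : E n) s)) m := by
      rw [← dl_dl hs0 hs1]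
      refine Pw_map (Y := Yk n m) ?_ (hm φ hφ)
      rintro _ ⟨f, hf, g, hg, rfl⟩
      have hf1 := HK_sub_HamBar hf
      have hg1 := HK_sub_HamBar hg
      exact ⟨dl s hs0 f, dl_HamBar hs0 (by linarith) hf1, dl s hs0 g,
        dl_HamBar hs0 (by linarith) hg1, dl_small hs0 hf1, dl_small hs0 hg1, conj_comm' _ _ _⟩
    have hk : ∀ k ≤ m, (3 * (k : ℝ) + 4) * s ≤ 1 / 50 := by
      intro k hk
      have h2 : (k : ℝ) ≤ m := by exact_mod_cast hk
      nlinarith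
    obtain ⟨F, hF, F', hF', Y, hY, hFs, hFs', -, he⟩ := bip hψ m
      (fun k hkm => (Us_disj hs0 hv hav k (hk k hkm)).1)
      (fun k hkm => (Us_disj hs0 hv hav k (hk k hkm)).2) h1
    have hsub := Us_sub2 hs0 hv hav m (by nlinarith)
    exact ⟨F, hF, F', hF', Y, hY, hFs.mono hsub, hFs'.mono hsub, he⟩

end Run7.h575.HD
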