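import Pool.Agent.Run7.h575.HD.Defs
import Pool.Agent.Y453.HB.Fin

/-!
# More definitions for the results on the Hamiltonian homeomorphisms of the ball

`HamBall n r` and the other notions: `Pool/Agent/Run7/h575/HD/Defs.lean`;
`IsHomogeneousQuasimorphism`: `Pool/Agent/Y453/HB/Fin.lean`.
-/

set_option autoImplicit false

open Pool.Agent.R773.HN (HamHomeo)
open Pool.Agent.Y453.HB (IsHomogeneousQuasimorphism)
open scoped commutatorElement

namespace Run7.h575.HD

/-- the property `P` holds for the group of the Hamiltonian homeomorphisms of some ball with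
centre `0` and radius `r`, `0 < r ≤ 1` -/
def ForSmallBall (n : ℕ) (P : Set (HamHomeo n) → Prop) : Prop :=
  ∃ r : ℝ, 0 < r ∧ r ≤ 1 ∧ P (HamBall n r)

/-- the Hamiltonian homeomorphisms of some small ball are products of commutators -/
def InCommutators (n : ℕ) : Prop :=
  ForSmallBall n fun B => B ⊆ (commutator (HamHomeo n) : Set (HamHomeo n))

/-- the Hamiltonian homeomorphisms of some small ball are products of two commutators -/
def InTwoCommutators (n : ℕ) : Prop :=
  ForSmallBall n fun B => ∀ φ ∈ B, ∃ a b c d : HamHomeo n, φ = ⁅a, b⁆ * ⁅c, d⁆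

/-- the Hamiltonian homeomorphisms of some small ball belong to all nontrivial normal subgroups -/
def InAllNormal (n : ℕ) : Prop :=
  ForSmallBall n fun B => ∀ N : Subgroup (HamHomeo n), N.Normal → N ≠ ⊥ →
    B ⊆ (N : Set (HamHomeo n))

/-- there is a small ball such that for every `g ≠ 1` all the Hamiltonian homeomorphisms of the
ball are products of `m` conjugates of `g` and `g⁻¹`, where `m` depends only on `g` -/
def InConjugates (n : ℕ) : Prop :=
  ForSmallBall n fun B => ∀ g : HamHomeo n, g ≠ 1 → ∃ m : ℕ, B ⊆ Pw (Conjs g) m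

/-- there is a small ball such that all conjugation invariant norms are bounded on its Hamiltonian
homeomorphisms and all homogeneous quasimorphisms vanish there -/
def NormsBounded (n : ℕ) : Prop :=
  ForSmallBall n fun B =>
    (∀ ν : HamHomeo n → ℝ, IsConjNorm ν → ∃ C : ℝ, ∀ φ ∈ B, ν φ ≤ C) ∧
    ∀ q : HamHomeo n → ℝ, IsHomogeneousQuasimorphism q → ∀ φ ∈ B, q φ = 0

end Run7.h575.HD
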