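import Pool.Agent.Run7.h575.HD.C8
import Pool.Agent.Run7.h575.HD.Defs2

/-!
# Uniformity of the commutator length of elements with small supports
-/

set_option autoImplicit false

open Set MeasureTheory Filter Topology Function
open Pool.Agent.Y453.HB
open Pool.Agent.Y309.HB
open Pool.Agent.N235.DH
open Pool.Agent.R773.HN
open scoped commutatorElement

namespace Run7.h575.HD

variable {n : ℕ}

/-! ### Conjugates -/

section

variable {G : Type} [Group G]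

theorem Conjs_conj {g : G} (a : G) : ∀ k ∈ Conjs g, a * k * a⁻¹ ∈ Conjs g := by
  rintro k ⟨b, rfl | rfl⟩
  · exact ⟨a * b, Or.inl (by group)⟩
  · exact ⟨a * b, Or.inr (by group)⟩

theorem Conjs_inv {g : G} : ∀ k ∈ Conjs g, k⁻¹ ∈ Conjs g := by
  rintro k ⟨b, rfl | rfl⟩
  · exact ⟨b, Or.inr (by group)⟩
  · exact ⟨b, Or.inl (by group)⟩

theorem mem_nc {g x : G} (h : x ∈ Subgroup.normalClosure {g}) : ∃ m, x ∈ Pw (Conjs g) m := by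
  unfold Subgroup.normalClosure at h
  induction h using Subgroup.closure_induction with
  | mem x hx =>
    obtain ⟨y, hy, hyx⟩ := Group.mem_conjugatesOfSet_iff.1 hx
    obtain rfl : y = g := hy
    obtain ⟨c, rfl⟩ := isConj_iff.1 hyx
    exact ⟨1, Pw_one ⟨c, Or.inl rfl⟩⟩
  | one => exact ⟨0, rfl⟩
  | mul x y _ _ hx hy =>
    obtain ⟨a, ha⟩ := hx
    obtain ⟨b, hb⟩ := hy
    exact ⟨a + b, Pw_mul ha hb⟩
  | inv x _ hx =>
    obtain ⟨a, ha⟩ := hx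
    exact ⟨a, Pw_inv Conjs_inv ha⟩

/-- Higman's formula -/
theorem higman {κ F F' : G} (hc : Commute (κ * F⁻¹ * κ⁻¹) F') :
    ⁅F, F'⁆ = (F * κ * F⁻¹ * κ⁻¹) * (F' * (F * κ * F⁻¹ * κ⁻¹)⁻¹ * F'⁻¹) := by
  set w := κ * F⁻¹ * κ⁻¹ with hw
  have e1 : F * κ * F⁻¹ * κ⁻¹ = F * w := by rw [hw]; group
  rw [e1]
  have e2 : F * w * (F' * (F * w)⁻¹ * F'⁻¹) = F * (w * F') * w⁻¹ * F⁻¹ * F'⁻¹ := by group
  rw [e2, hc.eq, commutatorElement_def]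
  group

theorem two_bound {g κ ψ F F' Y : G} {i j : ℕ} (hκ : κ ∈ Pw (Conjs g) i) (hψ : ψ ∈ Pw (Conjs g) j)
    (hc : Commute (κ * F⁻¹ * κ⁻¹) F') :
    ⁅F, F'⁆ * ⁅Y, ψ⁆ ∈ Pw (Conjs g) (i + i + (i + i) + (j + j)) := by
  have h1 : F * κ * F⁻¹ * κ⁻¹ ∈ Pw (Conjs g) (i + i) :=
    Pw_mul (Pw_map (Conjs_conj F) hκ) (Pw_inv Conjs_inv hκ)
  have h2 : F' * (F * κ * F⁻¹ * κ⁻¹)⁻¹ * F'⁻¹ ∈ Pw (Conjs g) (i + i) :=
    Pw_map (Conjs_conj F') (Pw_inv Conjs_inv h1)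
  rw [higman hc]
  exact Pw_mul (Pw_mul h1 h2) (Pw_mul (Pw_map (Conjs_conj Y) hψ) (Pw_inv Conjs_inv hψ))

theorem norm_Pw {ν : G → ℝ} (hν : IsConjNorm ν) {g x : G} {m : ℕ} (h : x ∈ Pw (Conjs g) m) :
    ν x ≤ ν 1 + m * ν g := by
  induction m generalizing x with
  | zero =>
    have h' : x = 1 := h
    rw [h']
    simp
  | succ m ih =>
    obtain ⟨f, hf, k, hk, rfl⟩ := h
    have h1 : ν k = ν g := by
      obtain ⟨a, rfl | rfl⟩ := hk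
      · exact hν.conj _ _
      · rw [hν.conj, hν.inv]
    have h2 := hν.mul f k
    have h3 := ih hf
    push_cast
    rw [h1] at h2
    linarith

theorem quasi_comm {q : G → ℝ} (hq : IsHomogeneousQuasimorphism q) {D : ℝ}
    (hD : ∀ φ ψ : G, |q (φ * ψ) - q φ - q ψ| ≤ D) (a b : G) : |q ⁅a, b⁆| ≤ D := by
  have h1 := hD (a * b * a⁻¹) b⁻¹
  rw [hq.conj] at h1
  have h2 : q (b * b⁻¹) = q b + q b⁻¹ := hq.comm (by group)
  have h3 : q (1 : G) = 0 := by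
    have := hq.pow (1 : G) 0
    simpa using this
  rw [mul_inv_cancel, h3] at h2
  have e : q (a * b * a⁻¹ * b⁻¹) - q b - q b⁻¹ = q ⁅a, b⁆ := by
    rw [commutatorElement_def]
    linarith
  rwa [e] at h1

end

/-! ### The group of Hamiltonian homeomorphisms of a small ball -/

/-- the same as `HamBall`, for `HamBar n` -/
def HB (n : ℕ) (r : ℝ) : Set (HamBar n) :=
  {φ | ∃ ψ : HamBar n, ∀ x : E n, (φ : Hm n) (r • x) = r • (ψ : Hm n) x}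

theorem HB_iff {r : ℝ} (hr : 0 < r) {φ : HamBar n} :
    φ ∈ HB n r ↔ ∃ ψ : HamBar n, (φ : Hm n) = dl r hr ψ := by
  constructor
  · rintro ⟨ψ, h⟩
    refine ⟨ψ, Homeomorph.ext fun x => ?_⟩
    have h1 := h (r⁻¹ • x)
    rwa [smul_smul, mul_inv_cancel₀ hr.ne', one_smul] at h1
  · rintro ⟨ψ, h⟩
    refine ⟨ψ, fun x => ?_⟩
    rw [h, dl_apply, smul_smul, inv_mul_cancel₀ hr.ne', one_smul]

theorem HB_pow {r : ℝ} (hr : 0 < r) {φ : HamBar n} (h : φ ∈ HB n r) (k : ℕ) : φ ^ k ∈ HB n r := by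
  obtain ⟨ψ, hψ⟩ := (HB_iff hr).1 h
  refine (HB_iff hr).2 ⟨ψ ^ k, ?_⟩
  rw [Subgroup.coe_pow, Subgroup.coe_pow, hψ]
  unfold dl
  rw [conj_pow]

/-- everything follows from the first condition, with one and the same ball -/
theorem all_of_comm (hn : 0 < n) {r : ℝ} (hr : 0 < r) (hr1 : r ≤ 1)
    (h : HB n r ⊆ (commutator (HamBar n) : Set (HamBar n))) :
    ∃ s : ℝ, 0 < s ∧ s ≤ 1 ∧ ∃ κ ψ : HamBar n, κ ≠ 1 ∧
      (∀ N : Subgroup (HamBar n), N.Normal → N ≠ ⊥ → κ ∈ N ∧ ψ ∈ N) ∧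
      ∀ φ ∈ HB n s, ∃ F F' Y : HamBar n, φ = ⁅F, F'⁆ * ⁅Y, ψ⁆ ∧ Commute (κ * F⁻¹ * κ⁻¹) F' := by
  obtain ⟨s, hs, a, b, c, hs1, ha, hb, hc, hd, hF⟩ := core2 hn hr hr1 (fun φ hφ => by
    have h1 : (⟨dl r hr φ, dl_HamBar hr hr1 hφ⟩ : HamBar n) ∈ HB n r :=
      (HB_iff hr).2 ⟨⟨φ, hφ⟩, rfl⟩
    exact comm_Pw (h h1))
  obtain ⟨S, -, -, s3, -, -, s6, -⟩ := main_of' hSm hCo hn (HamBar n)
    (fun u hu => ham_HamBar hu) le_rfl
  let a' : HamBar n := ⟨a, ham_HamBar ha⟩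
  let b' : HamBar n := ⟨b, ham_HamBar hb⟩
  let c' : HamBar n := ⟨c, ham_HamBar hc⟩
  refine ⟨s, hs, hs1, ⁅c', b'⁆, ⁅a', b'⁆, ?_, ?_, ?_⟩
  · intro h1
    have h2 : (⁅c, b⁆ : Hm n) = 1 := congrArg Subtype.val h1
    rw [h2] at hd
    have h3 : (0 : E n) ∈ D (0 : E n) (1 / 50) := mem_D_self 0 (by norm_num)
    exact Set.disjoint_left.1 hd ⟨0, h3, rfl⟩ h3
  · intro N hN hne
    exact ⟨s3 N hN hne (s6 c' b' hc hb), s3 N hN hne (s6 a' b' ha hb)⟩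
  · intro φ hφ
    obtain ⟨ψ, hψ⟩ := (HB_iff hs).1 hφ
    obtain ⟨F, hF1, F', hF1', Y, hY, hFs, hFs', he⟩ := hF ψ ψ.2
    refine ⟨⟨F, hF1⟩, ⟨F', hF1'⟩, ⟨Y, hY⟩, ?_, ?_⟩
    · exact Subtype.ext (hψ.trans he)
    · have h1 := Supp.commute hd (hFs.inv.conj (⁅c, b⁆ : Hm n)) hFs'
      exact Subtype.ext h1

theorem tfae (hn : 0 < n) : List.TFAE [
    ∃ r : ℝ, 0 < r ∧ r ≤ 1 ∧ HB n r ⊆ (commutator (HamBar n) : Set (HamBar n)),
    ∃ r : ℝ, 0 < r ∧ r ≤ 1 ∧ ∀ φ ∈ HB n r, ∃ a b c d : HamBar n, φ = ⁅a, b⁆ * ⁅c, d⁆,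
    ∃ r : ℝ, 0 < r ∧ r ≤ 1 ∧ ∀ N : Subgroup (HamBar n), N.Normal → N ≠ ⊥ →
      HB n r ⊆ (N : Set (HamBar n)),
    ∃ r : ℝ, 0 < r ∧ r ≤ 1 ∧ ∀ g : HamBar n, g ≠ 1 → ∃ m, HB n r ⊆ Pw (Conjs g) m] := by
  tfae_have 1 → 2 := by
    rintro ⟨r, hr, hr1, h⟩
    obtain ⟨s, hs, hs1, κ, ψ, -, -, h1⟩ := all_of_comm hn hr hr1 h
    refine ⟨s, hs, hs1, fun φ hφ => ?_⟩
    obtain ⟨F, F', Y, h2, -⟩ := h1 φ hφ
    exact ⟨F, F', Y, ψ, h2⟩
  tfae_have 1 → 4 := by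
    rintro ⟨r, hr, hr1, h⟩
    obtain ⟨s, hs, hs1, κ, ψ, -, hN, h1⟩ := all_of_comm hn hr hr1 h
    refine ⟨s, hs, hs1, fun g hg => ?_⟩
    have hne : Subgroup.normalClosure {g} ≠ ⊥ := fun h2 => hg (by
      have h3 : g ∈ Subgroup.normalClosure {g} := Subgroup.subset_normalClosure rfl
      rw [h2, Subgroup.mem_bot] at h3
      exact h3)
    obtain ⟨h2, h3⟩ := hN _ Subgroup.normalClosure_normal hne
    obtain ⟨i, hi⟩ := mem_nc h2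
    obtain ⟨j, hj⟩ := mem_nc h3
    refine ⟨i + i + (i + i) + (j + j), fun φ hφ => ?_⟩
    obtain ⟨F, F', Y, h4, h5⟩ := h1 φ hφ
    rw [h4]
    exact two_bound hi hj h5
  tfae_have 4 → 3 := by
    rintro ⟨r, hr, hr1, h⟩
    refine ⟨r, hr, hr1, fun N hN hne => ?_⟩
    obtain ⟨⟨g, hg⟩, hg1⟩ := (Subgroup.ne_bot_iff_exists_ne_one).1 hne
    obtain ⟨m, hm⟩ := h g fun h1 => hg1 (Subtype.ext h1)
    refine hm.trans (Pw_sub (N := N) ?_ m)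
    rintro _ ⟨a, rfl | rfl⟩
    · exact hN.conj_mem g hg a
    · exact hN.conj_mem _ (N.inv_mem hg) a
  tfae_have 3 → 1 := by
    rintro ⟨r, hr, hr1, h⟩
    refine ⟨r, hr, hr1, h _ inferInstance ?_⟩
    intro h1
    obtain ⟨a, b, ha, hb, -, -, hab⟩ := L3 hT hn (q := (0 : E n)) (r := 1 / 2) (by norm_num)
      (by rw [nm_zero]; norm_num)
    have h2 : ⁅(⟨a, ham_HamBar ha⟩ : HamBar n), ⟨b, ham_HamBar hb⟩⁆ ∈ commutator (HamBar n) :=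
      Subgroup.commutator_mem_commutator (Subgroup.mem_top _) (Subgroup.mem_top _)
    rw [h1, Subgroup.mem_bot] at h2
    exact hab (congrArg Subtype.val h2)
  tfae_have 2 → 1 := by
    rintro ⟨r, hr, hr1, h⟩
    refine ⟨r, hr, hr1, fun φ hφ => ?_⟩
    obtain ⟨a, b, c, d, rfl⟩ := h φ hφ
    exact (commutator (HamBar n)).mul_mem
      (Subgroup.commutator_mem_commutator (Subgroup.mem_top _) (Subgroup.mem_top _))
      (Subgroup.commutator_mem_commutator (Subgroup.mem_top _) (Subgroup.mem_top _))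
  tfae_finish

/-- simple groups of Hamiltonian homeomorphisms are perfect -/
theorem simple_perfect (hn : 0 < n) (h : IsSimpleGroup (HamBar n)) :
    commutator (HamBar n) = ⊤ := by
  rcases h.eq_bot_or_eq_top_of_normal (commutator (HamBar n)) inferInstance with h1 | h1
  · exfalso
    obtain ⟨a, b, ha, hb, -, -, hab⟩ := L3 hT hn (q := (0 : E n)) (r := 1 / 2) (by norm_num)
      (by rw [nm_zero]; norm_num)
    have h2 : ⁅(⟨a, ham_HamBar ha⟩ : HamBar n), ⟨b, ham_HamBar hb⟩⁆ ∈ commutator (HamBar n) :=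
      Subgroup.commutator_mem_commutator (Subgroup.mem_top _) (Subgroup.mem_top _)
    rw [h1, Subgroup.mem_bot] at h2
    exact hab (congrArg Subtype.val h2)
  · exact h1

/-- consequences for conjugation invariant norms and for quasimorphisms -/
theorem norms (hn : 0 < n) {r : ℝ} (hr : 0 < r) (hr1 : r ≤ 1)
    (h : HB n r ⊆ (commutator (HamBar n) : Set (HamBar n))) :
    ∃ s : ℝ, 0 < s ∧ s ≤ 1 ∧
      (∀ ν : HamBar n → ℝ, IsConjNorm ν → ∃ C : ℝ, ∀ φ ∈ HB n s, ν φ ≤ C) ∧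
      ∀ q : HamBar n → ℝ, IsHomogeneousQuasimorphism q → ∀ φ ∈ HB n s, q φ = 0 := by
  obtain ⟨s, hs, hs1, κ, ψ, hκ, hN, h1⟩ := all_of_comm hn hr hr1 h
  refine ⟨s, hs, hs1, fun ν hν => ?_, fun q hq φ hφ => ?_⟩
  · have hne : Subgroup.normalClosure {κ} ≠ ⊥ := fun h2 => hκ (by
      have h3 : κ ∈ Subgroup.normalClosure {κ} := Subgroup.subset_normalClosure rfl
      rw [h2, Subgroup.mem_bot] at h3
      exact h3)
    obtain ⟨h2, h3⟩ := hN _ Subgroup.normalClosure_normal hne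
    obtain ⟨i, hi⟩ := mem_nc h2
    obtain ⟨j, hj⟩ := mem_nc h3
    refine ⟨ν 1 + ((i + i + (i + i) + (j + j) : ℕ) : ℝ) * ν κ, fun φ hφ => ?_⟩
    obtain ⟨F, F', Y, h4, h5⟩ := h1 φ hφ
    rw [h4]
    exact norm_Pw hν (two_bound hi hj h5)
  · obtain ⟨D, hD⟩ := hq.bounded
    refine eq_of_bounded (D := 3 * D) fun k => ?_
    obtain ⟨F, F', Y, h4, -⟩ := h1 _ (HB_pow hs hφ k)
    have h5 := hq.pow φ k
    have h6 := hD ⁅F, F'⁆ ⁅Y, ψ⁆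
    have h7 := quasi_comm hq hD F F'
    have h8 := quasi_comm hq hD Y ψ
    rw [← h4] at h6
    have h9 : (k : ℝ) * |q φ| = |q (φ ^ k)| := by
      rw [h5, abs_mul, Nat.abs_cast]
    rw [h9]
    rw [abs_le] at h6 h7 h8 ⊢
    constructor <;> linarith [h6.1, h6.2, h7.1, h7.2, h8.1, h8.2]

end Run7.h575.HD
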